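import Mathlib

set_option autoImplicit false

namespace Pool.Agent.Helper49.Sph

private theorem c2_inner {d : ℕ} (x y : EuclideanSpace ℝ (Fin d)) :
    (inner ℝ x y : ℝ) = ∑ k, x k * y k := by
  rw [PiLp.inner_apply]
  apply Finset.sum_congr rfl
  intro k _
  simp [mul_comm]

/-
Plan. M_kl = sum_i x(i)_k ρ(i)_l; the left side is (sum_k M_kk)² ≤ d sum_k M_kk² ≤ d sum_kl M_kl², and
sum_kl M_kl² = sum_ij <x i, x j> <ρ i, ρ j>. (inner_eq_sum in Pool.Agent.Helper17.Sph.Frob.)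
-/
theorem tensor2 {d : ℕ} {ι : Type*} (P : Finset ι) (x ρ : ι → EuclideanSpace ℝ (Fin d)) :
    (∑ i ∈ P, (inner ℝ (x i) (ρ i) : ℝ)) ^ 2 ≤
      d * ∑ i ∈ P, ∑ j ∈ P, (inner ℝ (x i) (x j) : ℝ) * inner ℝ (ρ i) (ρ j) := by
  set M : Fin d → Fin d → ℝ := fun k l => ∑ i ∈ P, x i k * ρ i l with hM
  have h1 : ∑ i ∈ P, (inner ℝ (x i) (ρ i) : ℝ) = ∑ k, M k k := by
    simp only [hM, c2_inner]
    rw [Finset.sum_comm]
  have h2 : ∑ i ∈ P, ∑ j ∈ P, (inner ℝ (x i) (x j) : ℝ) * inner ℝ (ρ i) (ρ j) =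
      ∑ k, ∑ l, M k l ^ 2 := by
    have e1 : ∀ k l, M k l ^ 2 = ∑ i ∈ P, ∑ j ∈ P, (x i k * x j k) * (ρ i l * ρ j l) := by
      intro k l
      simp only [hM, sq]
      rw [Finset.sum_mul_sum]
      apply Finset.sum_congr rfl
      intro i _
      apply Finset.sum_congr rfl
      intro j _
      ring
    simp only [e1]
    have e2 : ∀ i j, (inner ℝ (x i) (x j) : ℝ) * inner ℝ (ρ i) (ρ j) =
        ∑ k, ∑ l, (x i k * x j k) * (ρ i l * ρ j l) := by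
      intro i j
      rw [c2_inner, c2_inner, Finset.sum_mul_sum]
    simp only [e2]
    calc _ = ∑ i ∈ P, ∑ k, ∑ j ∈ P, ∑ l, (x i k * x j k) * (ρ i l * ρ j l) :=
          Finset.sum_congr rfl (fun i _ => Finset.sum_comm)
      _ = ∑ k, ∑ i ∈ P, ∑ j ∈ P, ∑ l, (x i k * x j k) * (ρ i l * ρ j l) := Finset.sum_comm
      _ = ∑ k, ∑ i ∈ P, ∑ l, ∑ j ∈ P, (x i k * x j k) * (ρ i l * ρ j l) :=
          Finset.sum_congr rfl (fun k _ => Finset.sum_congr rfl (fun i _ => Finset.sum_comm))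
      _ = _ := Finset.sum_congr rfl (fun k _ => Finset.sum_comm)
  rw [h1, h2]
  have h3 := sq_sum_le_card_mul_sum_sq (s := (Finset.univ : Finset (Fin d))) (f := fun k => M k k)
  rw [Finset.card_univ, Fintype.card_fin] at h3
  refine h3.trans ?_
  apply mul_le_mul_of_nonneg_left _ (Nat.cast_nonneg d)
  apply Finset.sum_le_sum
  intro k _
  exact Finset.single_le_sum (f := fun l => M k l ^ 2) (fun l _ => sq_nonneg _) (Finset.mem_univ k)

/-
Plan. The sum is sum_{k,l,m} (sum_i x(i)_k ρ(i)_l ρ(i)_m)².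
-/
theorem tensor3 {d : ℕ} {ι : Type*} (P : Finset ι) (x ρ : ι → EuclideanSpace ℝ (Fin d)) :
    0 ≤ ∑ i ∈ P, ∑ j ∈ P, (inner ℝ (x i) (x j) : ℝ) * (inner ℝ (ρ i) (ρ j)) ^ 2 := by
  have h : ∑ i ∈ P, ∑ j ∈ P, (inner ℝ (x i) (x j) : ℝ) * (inner ℝ (ρ i) (ρ j)) ^ 2 =
      ∑ k, ∑ l, ∑ m, (∑ i ∈ P, x i k * ρ i l * ρ i m) ^ 2 := by
    have e2 : ∀ i j, (inner ℝ (x i) (x j) : ℝ) * (inner ℝ (ρ i) (ρ j)) ^ 2 =
        ∑ k, ∑ l, ∑ m, (x i k * ρ i l * ρ i m) * (x j k * ρ j l * ρ j m) := by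
      intro i j
      rw [c2_inner, c2_inner, sq, Finset.sum_mul_sum, Finset.sum_mul]
      apply Finset.sum_congr rfl
      intro k _
      rw [Finset.mul_sum]
      apply Finset.sum_congr rfl
      intro l _
      rw [Finset.mul_sum]
      apply Finset.sum_congr rfl
      intro m _
      ring
    simp only [e2]
    simp only [sq, Finset.sum_mul_sum]
    calc _ = ∑ i ∈ P, ∑ k, ∑ j ∈ P, ∑ l, ∑ m, (x i k * ρ i l * ρ i m) * (x j k * ρ j l * ρ j m) :=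
          Finset.sum_congr rfl (fun i _ => Finset.sum_comm)
      _ = ∑ k, ∑ i ∈ P, ∑ j ∈ P, ∑ l, ∑ m, (x i k * ρ i l * ρ i m) * (x j k * ρ j l * ρ j m) :=
          Finset.sum_comm
      _ = ∑ k, ∑ i ∈ P, ∑ l, ∑ j ∈ P, ∑ m, (x i k * ρ i l * ρ i m) * (x j k * ρ j l * ρ j m) :=
          Finset.sum_congr rfl (fun k _ => Finset.sum_congr rfl (fun i _ => Finset.sum_comm))
      _ = ∑ k, ∑ l, ∑ i ∈ P, ∑ j ∈ P, ∑ m, (x i k * ρ i l * ρ i m) * (x j k * ρ j l * ρ j m) :=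
          Finset.sum_congr rfl (fun k _ => Finset.sum_comm)
      _ = ∑ k, ∑ l, ∑ i ∈ P, ∑ m, ∑ j ∈ P, (x i k * ρ i l * ρ i m) * (x j k * ρ j l * ρ j m) :=
          Finset.sum_congr rfl (fun k _ => Finset.sum_congr rfl (fun l _ =>
            Finset.sum_congr rfl (fun i _ => Finset.sum_comm)))
      _ = _ := Finset.sum_congr rfl (fun k _ => Finset.sum_congr rfl (fun l _ => Finset.sum_comm))
  rw [h]
  exact Finset.sum_nonneg (fun k _ => Finset.sum_nonneg (fun l _ => Finset.sum_nonneg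
    (fun m _ => sq_nonneg _)))

end Pool.Agent.Helper49.Sph
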