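import Mathlib

set_option autoImplicit false

namespace Pool.Agent.Helper49.Sph

/-
Plan. Fix v0 in S; the other vectors are linearly independent: if sum c_v v = 0 over S \ {v0}, put
w = sum_{c_v > 0} c_v v = sum_{c_v < 0} (-c_v) v; then <w,w> = sum c_v (-c_u) <v,u> ≤ 0, so w = 0, and
0 = <w,v0> = sum_{c_v > 0} c_v <v,v0> is < 0 unless no c_v is positive; same for the negative ones.
-/
theorem neg_card {d : ℕ} (S : Finset (EuclideanSpace ℝ (Fin d)))
    (h : ∀ x ∈ S, ∀ y ∈ S, x ≠ y → inner ℝ x y < 0) : S.card ≤ d + 1 := by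
  classical
  rcases S.eq_empty_or_nonempty with rfl | ⟨v0, hv0⟩
  · simp
  have hli : LinearIndependent ℝ (fun v : ↥(S.erase v0) =>
      (v : EuclideanSpace ℝ (Fin d))) := by
    rw [Fintype.linearIndependent_iff]
    intro c hc
    set a : ↥(S.erase v0) → ℝ := fun v => max (c v) 0 with ha
    set b : ↥(S.erase v0) → ℝ := fun v => max (-c v) 0 with hb
    have hab : ∀ v, c v = a v - b v := by
      intro v
      simp only [ha, hb]
      rcases le_total 0 (c v) with h1 | h1
      · rw [max_eq_left h1, max_eq_right (by linarith)]; ring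
      · rw [max_eq_right h1, max_eq_left (by linarith)]; ring
    have ha0 : ∀ v, 0 ≤ a v := fun v => le_max_right _ _
    have hb0 : ∀ v, 0 ≤ b v := fun v => le_max_right _ _
    have hmul : ∀ v, a v * b v = 0 := by
      intro v
      simp only [ha, hb]
      rcases le_total 0 (c v) with h1 | h1
      · rw [max_eq_right (show -c v ≤ 0 by linarith)]; ring
      · rw [max_eq_right h1]; ring
    have hsum : ∑ v, a v • (v : EuclideanSpace ℝ (Fin d)) =
        ∑ v, b v • (v : EuclideanSpace ℝ (Fin d)) := by
      have : ∑ v, (a v - b v) • (v : EuclideanSpace ℝ (Fin d)) = 0 := by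
        rw [← hc]
        exact Finset.sum_congr rfl fun v _ => by rw [hab v]
      simp only [sub_smul, Finset.sum_sub_distrib] at this
      exact sub_eq_zero.mp this
    set w : EuclideanSpace ℝ (Fin d) := ∑ v, a v • (v : EuclideanSpace ℝ (Fin d)) with hw
    have hww : inner ℝ w w ≤ 0 := by
      have e1 : inner ℝ w w = inner ℝ (∑ v, a v • (v : EuclideanSpace ℝ (Fin d)))
          (∑ v, b v • (v : EuclideanSpace ℝ (Fin d))) := by rw [← hsum]
      rw [e1, sum_inner]
      refine Finset.sum_nonpos fun v _ => ?_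
      rw [inner_sum]
      refine Finset.sum_nonpos fun u _ => ?_
      rw [inner_smul_left, inner_smul_right]
      simp only [RCLike.conj_to_real]
      by_cases hvu : v = u
      · subst hvu
        rw [← mul_assoc, hmul, zero_mul]
      · have h1 : inner ℝ (v : EuclideanSpace ℝ (Fin d)) (u : EuclideanSpace ℝ (Fin d)) < 0 :=
          h _ (Finset.mem_of_mem_erase v.2) _ (Finset.mem_of_mem_erase u.2)
            (fun hh => hvu (Subtype.ext hh))
        have h2 : 0 ≤ a v * b u := mul_nonneg (ha0 v) (hb0 u)
        nlinarith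
    have hw0 : w = 0 := by
      have h1 := real_inner_self_nonneg (x := w)
      exact inner_self_eq_zero.mp (le_antisymm hww h1)
    have key : ∀ e : ↥(S.erase v0) → ℝ, (∀ v, 0 ≤ e v) →
        ∑ v, e v • (v : EuclideanSpace ℝ (Fin d)) = 0 → ∀ v, e v = 0 := by
      intro e he hes
      have h1 : ∑ v, e v * inner ℝ (v : EuclideanSpace ℝ (Fin d)) v0 = 0 := by
        have h2 : inner ℝ (∑ v, e v • (v : EuclideanSpace ℝ (Fin d))) v0 = 0 := by
          rw [hes, inner_zero_left]
        rw [sum_inner] at h2
        rw [← h2]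
        exact Finset.sum_congr rfl fun v _ => by rw [inner_smul_left]; simp
      have hneg : ∀ v : ↥(S.erase v0),
          inner ℝ (v : EuclideanSpace ℝ (Fin d)) v0 < 0 := fun v =>
        h _ (Finset.mem_of_mem_erase v.2) _ hv0 (Finset.ne_of_mem_erase v.2)
      have h3 : ∀ v ∈ (Finset.univ : Finset ↥(S.erase v0)),
          e v * inner ℝ (v : EuclideanSpace ℝ (Fin d)) v0 ≤ 0 := fun v _ =>
        mul_nonpos_of_nonneg_of_nonpos (he v) (hneg v).le
      intro v
      have h4 := (Finset.sum_eq_zero_iff_of_nonpos h3).mp h1 v (Finset.mem_univ v)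
      rcases mul_eq_zero.mp h4 with h5 | h5
      · exact h5
      · exact absurd h5 (hneg v).ne
    have hA := key a ha0 hw0
    have hB := key b hb0 (by rw [← hsum]; exact hw0)
    intro v
    rw [hab v, hA v, hB v, sub_zero]
  have h1 := hli.fintype_card_le_finrank
  rw [finrank_euclideanSpace_fin, Fintype.card_coe, Finset.card_erase_of_mem hv0] at h1
  omega

/-
Plan. Linearly independent: ‖sum c_v v‖² = (1-α) sum c_v² + α (sum c_v)².
-/
theorem clique_card {d : ℕ} {α : ℝ} (h0 : 0 < α) (h1 : α < 1)
    (S : Finset (EuclideanSpace ℝ (Fin d))) (hn : ∀ x ∈ S, ‖x‖ = 1)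
    (h : ∀ x ∈ S, ∀ y ∈ S, x ≠ y → inner ℝ x y = α) : S.card ≤ d := by
  classical
  have hli : LinearIndependent ℝ (fun v : S => (v : EuclideanSpace ℝ (Fin d))) := by
    rw [Fintype.linearIndependent_iff]
    intro c hc
    have e1 : inner ℝ (∑ v, c v • (v : EuclideanSpace ℝ (Fin d)))
        (∑ v, c v • (v : EuclideanSpace ℝ (Fin d))) =
        (1 - α) * ∑ v, c v ^ 2 + α * (∑ v, c v) ^ 2 := by
      rw [sum_inner]
      have e2 : ∀ v : S, inner ℝ (c v • (v : EuclideanSpace ℝ (Fin d)))
          (∑ u, c u • (u : EuclideanSpace ℝ (Fin d))) =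
          (1 - α) * c v ^ 2 + α * (c v * ∑ u, c u) := by
        intro v
        rw [inner_sum]
        have e3 : ∀ u : S, inner ℝ (c v • (v : EuclideanSpace ℝ (Fin d)))
            (c u • (u : EuclideanSpace ℝ (Fin d))) =
            (if u = v then (1 - α) * c v ^ 2 else 0) + α * (c v * c u) := by
          intro u
          rw [inner_smul_left, inner_smul_right]
          simp only [RCLike.conj_to_real]
          by_cases huv : u = v
          · subst huv
            rw [if_pos rfl, real_inner_self_eq_norm_sq, hn _ u.2]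
            ring
          · rw [if_neg huv, h _ v.2 _ u.2 (fun hh => huv (Subtype.ext hh).symm)]
            ring
        rw [Finset.sum_congr rfl fun u _ => e3 u, Finset.sum_add_distrib]
        simp only [Finset.sum_ite_eq', Finset.mem_univ, if_true]
        rw [← Finset.mul_sum, ← Finset.mul_sum]
      rw [Finset.sum_congr rfl fun v _ => e2 v, Finset.sum_add_distrib, ← Finset.mul_sum,
        ← Finset.mul_sum, ← Finset.sum_mul]
      ring
    rw [hc, inner_zero_left] at e1
    have h2 : 0 ≤ ∑ v, c v ^ 2 := Finset.sum_nonneg fun v _ => sq_nonneg _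
    have h3 : ∑ v, c v ^ 2 = 0 := by
      have h4 : 0 ≤ α * (∑ v, c v) ^ 2 := mul_nonneg h0.le (sq_nonneg _)
      have h5 : (1 - α) * ∑ v, c v ^ 2 ≤ 0 := by linarith
      have h6 : 0 < 1 - α := by linarith
      nlinarith
    intro v
    have h4 := (Finset.sum_eq_zero_iff_of_nonneg (fun v _ => sq_nonneg (c v))).mp h3 v
      (Finset.mem_univ v)
    exact pow_eq_zero_iff (two_ne_zero) |>.mp h4
  have h2 := hli.fintype_card_le_finrank
  rwa [finrank_euclideanSpace_fin, Fintype.card_coe] at h2

end Pool.Agent.Helper49.Sph
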