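import Mathlib

set_option autoImplicit false

open scoped Classical

namespace Pool.Agent.Helper49.Sph

/-- the class of `x` -/
noncomputable def cl {d : ℕ} (α : ℝ) (P : Finset (EuclideanSpace ℝ (Fin d)))
    (x : EuclideanSpace ℝ (Fin d)) : Finset (EuclideanSpace ℝ (Fin d)) :=
  P.filter (fun y => y = x ∨ inner ℝ x y = α)

/-- `x` minus the centroid of its class -/
noncomputable def rho {d : ℕ} (α : ℝ) (P : Finset (EuclideanSpace ℝ (Fin d)))
    (x : EuclideanSpace ℝ (Fin d)) : EuclideanSpace ℝ (Fin d) :=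
  x - ((cl α P x).card : ℝ)⁻¹ • ∑ y ∈ cl α P x, y

/-- unit vectors, distinct inner products negative or `α` -/
def Code {d : ℕ} (α : ℝ) (S : Finset (EuclideanSpace ℝ (Fin d))) : Prop :=
  (∀ x ∈ S, ‖x‖ = 1) ∧ ∀ x ∈ S, ∀ y ∈ S, x ≠ y → ((inner ℝ x y : ℝ) < 0 ∨ inner ℝ x y = α)

/-- `x ~ y` is transitive on `P` -/
def Trans {d : ℕ} (α : ℝ) (P : Finset (EuclideanSpace ℝ (Fin d))) : Prop :=
  ∀ x ∈ P, ∀ y ∈ P, ∀ z ∈ P, x ≠ z → inner ℝ x y = α → inner ℝ y z = α → inner ℝ x z = α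

end Pool.Agent.Helper49.Sph
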