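import Mathlib

set_option autoImplicit false

open scoped Classical

namespace Pool.Agent.Helper49.Sph

private theorem sum_inner_const {d : ℕ} (A : Finset (EuclideanSpace ℝ (Fin d)))
    (y : EuclideanSpace ℝ (Fin d)) {α : ℝ} (h : ∀ a ∈ A, inner ℝ y a = α) :
    inner ℝ y (∑ a ∈ A, a) = (A.card : ℝ) * α := by
  rw [inner_sum, Finset.sum_congr rfl h, Finset.sum_const, nsmul_eq_mul]

private theorem norm_sum_clique {d : ℕ} (A : Finset (EuclideanSpace ℝ (Fin d))) {α : ℝ}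
    (h1 : ∀ a ∈ A, ‖a‖ = 1) (h2 : ∀ a ∈ A, ∀ b ∈ A, a ≠ b → inner ℝ a b = α) :
    inner ℝ (∑ a ∈ A, a) (∑ a ∈ A, a) = (A.card : ℝ) * ((1 - α) + (A.card : ℝ) * α) := by
  rw [sum_inner]
  have : ∀ a ∈ A, inner ℝ a (∑ b ∈ A, b) = (1 - α) + (A.card : ℝ) * α := by
    intro a ha
    rw [inner_sum]
    have h3 : ∀ b ∈ A, (inner ℝ a b : ℝ) = α + (if a = b then (1 - α) else 0) := by
      intro b hb
      by_cases hab : a = b
      · subst hab
        rw [real_inner_self_eq_norm_sq, h1 a ha]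
        simp
      · rw [h2 a ha b hb hab]
        simp [hab]
    rw [Finset.sum_congr rfl h3, Finset.sum_add_distrib, Finset.sum_ite_eq A a, if_pos ha,
      Finset.sum_const, nsmul_eq_mul]
    ring
  rw [Finset.sum_congr rfl this, Finset.sum_const, nsmul_eq_mul]

/-
Plan. k = |A|, c = (1/k) sum A: <y,c> = <z,c> = α, ‖c‖² = α + (1-α)/k, ‖y-c‖² = ‖z-c‖² = (1-α)(1+1/k), so
<y,z> - α + (1-α)/k = <y-c,z-c> ≥ -(1-α)(1+1/k), <y,z> ≥ 2α-1-2(1-α)/k > 0 for k > 2(1-α)/(2α-1).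
-/
theorem common_nbr {α : ℝ} (hα : 1 / 2 < α) (hα1 : α < 1) : ∃ k0 : ℕ, 0 < k0 ∧
    ∀ (d : ℕ) (A : Finset (EuclideanSpace ℝ (Fin d))) (y z : EuclideanSpace ℝ (Fin d)), k0 ≤ A.card →
    (∀ a ∈ A, ‖a‖ = 1) → (∀ a ∈ A, ∀ b ∈ A, a ≠ b → inner ℝ a b = α) → ‖y‖ = 1 → ‖z‖ = 1 →
    (∀ a ∈ A, inner ℝ y a = α) → (∀ a ∈ A, inner ℝ z a = α) → (0 : ℝ) < inner ℝ y z := by
  have hb : 0 < 2 * α - 1 := by linarith
  obtain ⟨k0, hk0⟩ := exists_nat_gt (2 * (1 - α) / (2 * α - 1))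
  have hk0p : (0 : ℝ) < k0 := lt_of_le_of_lt (div_nonneg (by linarith) hb.le) hk0
  refine ⟨k0, by exact_mod_cast hk0p, ?_⟩
  intro d A y z hc hA1 hA2 hy hz hyA hzA
  have hk : (k0 : ℝ) ≤ (A.card : ℝ) := by exact_mod_cast hc
  obtain ⟨k, hkdef⟩ : ∃ k : ℝ, k = (A.card : ℝ) := ⟨_, rfl⟩
  rw [← hkdef] at hk
  have hkp : 0 < k := lt_of_lt_of_le hk0p hk
  have hbig : 2 * (1 - α) < k * (2 * α - 1) := by
    rw [div_lt_iff₀ hb] at hk0
    nlinarith
  have e1 := sum_inner_const A y hyA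
  have e2 := sum_inner_const A z hzA
  have e3 := norm_sum_clique A hA1 hA2
  rw [← hkdef] at e1 e2 e3
  set s := ∑ a ∈ A, a with hs
  have hyy : inner ℝ y y = (1 : ℝ) := by rw [real_inner_self_eq_norm_sq, hy]; norm_num
  have hzz : inner ℝ z z = (1 : ℝ) := by rw [real_inner_self_eq_norm_sq, hz]; norm_num
  have e1' : inner ℝ s y = k * α := by rw [real_inner_comm]; exact e1
  have e2' : inner ℝ s z = k * α := by rw [real_inner_comm]; exact e2
  have hzy : inner ℝ z y = (inner ℝ y z : ℝ) := real_inner_comm _ _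
  have hsum : (0 : ℝ) ≤ inner ℝ ((k • y - s) + (k • z - s)) ((k • y - s) + (k • z - s)) :=
    real_inner_self_nonneg
  have hexp : inner ℝ ((k • y - s) + (k • z - s)) ((k • y - s) + (k • z - s)) =
      2 * (k * (k + 1) * (1 - α)) + 2 * (k ^ 2 * inner ℝ y z - k ^ 2 * α + k * (1 - α)) := by
    simp only [inner_add_left, inner_add_right, inner_sub_left, inner_sub_right,
      real_inner_smul_left, real_inner_smul_right, e1, e2, e1', e2', e3, hyy, hzz, hzy]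
    ring
  rw [hexp] at hsum
  have h4 : k * (2 * (1 - α)) < k * (k * (2 * α - 1)) := mul_lt_mul_of_pos_left hbig hkp
  have h5 : 0 < k ^ 2 * (inner ℝ y z : ℝ) := by nlinarith
  exact (pos_iff_pos_of_mul_pos h5).mp (by positivity)

/-
Plan. k_i = |K_i|, u = (1/k1) sum K1 + (1/k2) sum K2: <x,u> = 2α, and
‖u‖² ≤ 2α + (1-α)(1/k1 + 1/k2) + 2 (k2 k0 α)/(k1 k2) (in sum_{a ∈ K1, y ∈ K2} <a,y> the terms are negative or α, and at
most k0 k2 of them are α). 4α² ≤ ‖u‖² fails for large k1, k2 because 4α² > 2α. (K1 and K2 need not be disjoint: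
hypothesis hneg excludes a common element, whose inner product with itself would be 1.)
-/
theorem two_cliques {α : ℝ} (hα : 1 / 2 < α) (hα1 : α < 1) (k0 : ℕ) : ∃ k1 : ℕ, 0 < k1 ∧
    ∀ (d : ℕ) (K1 K2 : Finset (EuclideanSpace ℝ (Fin d))) (x : EuclideanSpace ℝ (Fin d)),
    k1 ≤ K1.card → k1 ≤ K2.card → ‖x‖ = 1 →
    (∀ a ∈ K1, ‖a‖ = 1) → (∀ a ∈ K1, ∀ b ∈ K1, a ≠ b → inner ℝ a b = α) →
    (∀ a ∈ K2, ‖a‖ = 1) → (∀ a ∈ K2, ∀ b ∈ K2, a ≠ b → inner ℝ a b = α) →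
    (∀ y ∈ K2, ∀ a ∈ K1, ((inner ℝ a y : ℝ) < 0 ∨ inner ℝ a y = α)) →
    (∀ y ∈ K2, (K1.filter (fun a => inner ℝ a y = α)).card ≤ k0) →
    (∀ a ∈ K1, inner ℝ x a = α) → (∀ a ∈ K2, inner ℝ x a = α) → False := by
  have hb : 0 < α * (2 * α - 1) := mul_pos (by linarith) (by linarith)
  obtain ⟨k1, hk1⟩ := exists_nat_gt ((1 + 2 * (k0 : ℝ)) / (α * (2 * α - 1)))
  have hk1p : (0 : ℝ) < k1 := lt_of_le_of_lt (by positivity) hk1
  refine ⟨k1, by exact_mod_cast hk1p, ?_⟩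
  intro d K1 K2 x hc1 hc2 hx h11 h12 h21 h22 hneg hcard hx1 hx2
  rw [div_lt_iff₀ hb] at hk1
  have hm' : (k1 : ℝ) ≤ (K1.card : ℝ) := by exact_mod_cast hc1
  have hn' : (k1 : ℝ) ≤ (K2.card : ℝ) := by exact_mod_cast hc2
  have e1 := sum_inner_const K1 x hx1
  have e2 := sum_inner_const K2 x hx2
  have e3 := norm_sum_clique K1 h11 h12
  have e4 := norm_sum_clique K2 h21 h22
  have e5 : (inner ℝ (∑ a ∈ K1, a) (∑ y ∈ K2, y) : ℝ) ≤ (K2.card : ℝ) * ((k0 : ℝ) * α) := by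
    rw [inner_sum]
    rw [← nsmul_eq_mul]
    refine Finset.sum_le_card_nsmul _ _ _ ?_
    intro y hy
    rw [sum_inner]
    have h6 : ∀ a ∈ K1, (inner ℝ a y : ℝ) ≤ if inner ℝ a y = α then α else 0 := by
      intro a ha
      by_cases h : inner ℝ a y = α
      · rw [if_pos h, h]
      · rw [if_neg h]
        exact ((hneg y hy a ha).resolve_right h).le
    refine (Finset.sum_le_sum h6).trans ?_
    rw [← Finset.sum_filter, Finset.sum_const, nsmul_eq_mul]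
    have h7 : ((K1.filter (fun a => inner ℝ a y = α)).card : ℝ) ≤ (k0 : ℝ) := by
      exact_mod_cast hcard y hy
    exact mul_le_mul_of_nonneg_right h7 (by linarith)
  obtain ⟨m, hm⟩ : ∃ m : ℝ, m = (K1.card : ℝ) := ⟨_, rfl⟩
  obtain ⟨n, hn⟩ : ∃ n : ℝ, n = (K2.card : ℝ) := ⟨_, rfl⟩
  rw [← hm] at hm' e1 e3
  rw [← hn] at hn' e2 e4 e5
  set s1 := ∑ a ∈ K1, a with hs1
  set s2 := ∑ a ∈ K2, a with hs2
  have hmp : 0 < m := lt_of_lt_of_le hk1p hm'
  have hnp : 0 < n := lt_of_lt_of_le hk1p hn'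
  have hxx : inner ℝ x x = (1 : ℝ) := by rw [real_inner_self_eq_norm_sq, hx]; norm_num
  have hxu : (inner ℝ x (n • s1 + m • s2) : ℝ) = 2 * (m * n * α) := by
    simp only [inner_add_right, real_inner_smul_right, e1, e2]
    ring
  have h21' : (inner ℝ s2 s1 : ℝ) = inner ℝ s1 s2 := real_inner_comm _ _
  have huu : (inner ℝ (n • s1 + m • s2) (n • s1 + m • s2) : ℝ) =
      n ^ 2 * (m * ((1 - α) + m * α)) + m ^ 2 * (n * ((1 - α) + n * α)) +
        2 * (m * n) * inner ℝ s1 s2 := by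
    simp only [inner_add_left, inner_add_right, real_inner_smul_left, real_inner_smul_right,
      e3, e4, h21']
    ring
  have hcs := real_inner_mul_inner_self_le x (n • s1 + m • s2)
  rw [hxx, one_mul, hxu, huu] at hcs
  have hmn : 0 < m * n := mul_pos hmp hnp
  have h8 : 2 * (m * n) * (inner ℝ s1 s2 : ℝ) ≤ 2 * (m * n) * (n * ((k0 : ℝ) * α)) :=
    mul_le_mul_of_nonneg_left e5 (by positivity)
  have h9 : (m * n) * (2 * (m * n) * (α * (2 * α - 1))) ≤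
      (m * n) * ((m + n) * (1 - α) + 2 * n * (k0 * α)) := by nlinarith
  have h10 := le_of_mul_le_mul_left h9 hmn
  have hk00 : (0 : ℝ) ≤ k0 := Nat.cast_nonneg _
  have h11' : (m + n) * (1 - α) + 2 * n * (k0 * α) ≤ (m + n) * (1 + 2 * k0) := by
    have a1 : (m + n) * (1 - α) ≤ (m + n) * 1 := mul_le_mul_of_nonneg_left (by linarith) (by linarith)
    have a2 : (k0 : ℝ) * α ≤ k0 := by nlinarith
    have a3 : 2 * n * (k0 * α) ≤ 2 * n * k0 := mul_le_mul_of_nonneg_left a2 (by linarith)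
    nlinarith [mul_nonneg hmp.le hk00]
  have h12' : (k1 : ℝ) * (m + n) ≤ 2 * (m * n) := by nlinarith
  have h13 : (k1 : ℝ) * (2 * (m * n) * (α * (2 * α - 1))) ≤ 2 * (m * n) * (1 + 2 * k0) := by
    calc (k1 : ℝ) * (2 * (m * n) * (α * (2 * α - 1))) ≤ k1 * ((m + n) * (1 + 2 * k0)) :=
          mul_le_mul_of_nonneg_left (h10.trans h11') hk1p.le
      _ = (k1 * (m + n)) * (1 + 2 * k0) := by ring
      _ ≤ 2 * (m * n) * (1 + 2 * k0) := mul_le_mul_of_nonneg_right h12' (by positivity)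
  have h14 : 2 * (m * n) * ((k1 : ℝ) * (α * (2 * α - 1))) ≤ 2 * (m * n) * (1 + 2 * k0) := by
    linarith
  have h15 := le_of_mul_le_mul_left h14 (by positivity)
  linarith

end Pool.Agent.Helper49.Sph
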