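import Mathlib
import Pool.Agent.Helper49.Sph.CDef
import Pool.Agent.Helper49.Sph.R1

set_option autoImplicit false

open scoped Classical

namespace Pool.Agent.Helper49.Sph

/-- a clique of `S` -/
def Clq {d : ℕ} (α : ℝ) (S Q : Finset (EuclideanSpace ℝ (Fin d))) : Prop :=
  Q ⊆ S ∧ ∀ x ∈ Q, ∀ y ∈ Q, x ≠ y → inner ℝ x y = α

private theorem r2_claim {α : ℝ} {k0 : ℕ}
    (h0 : ∀ (d : ℕ) (A : Finset (EuclideanSpace ℝ (Fin d))) (y z : EuclideanSpace ℝ (Fin d)),
      k0 ≤ A.card → (∀ a ∈ A, ‖a‖ = 1) → (∀ a ∈ A, ∀ b ∈ A, a ≠ b → inner ℝ a b = α) → ‖y‖ = 1 →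
      ‖z‖ = 1 → (∀ a ∈ A, inner ℝ y a = α) → (∀ a ∈ A, inner ℝ z a = α) → (0 : ℝ) < inner ℝ y z)
    {d : ℕ} {S Q : Finset (EuclideanSpace ℝ (Fin d))} {v : EuclideanSpace ℝ (Fin d)}
    (hS : Code α S) (hQ : Clq α S Q) (hv : v ∈ S)
    (hA : k0 ≤ (Q.filter (fun q => inner ℝ v q = α)).card) :
    ∀ z ∈ Q, z ≠ v → inner ℝ v z = α := by
  intro z hz hzv
  by_contra hne
  have hpos : (0 : ℝ) < inner ℝ v z := by
    refine h0 d (Q.filter (fun q => inner ℝ v q = α)) v z hA ?_ ?_ (hS.1 v hv)
      (hS.1 z (hQ.1 hz)) ?_ ?_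
    · intro a ha
      exact hS.1 a (hQ.1 (Finset.mem_filter.1 ha).1)
    · intro a ha b hb hab
      exact hQ.2 a (Finset.mem_filter.1 ha).1 b (Finset.mem_filter.1 hb).1 hab
    · intro a ha
      exact (Finset.mem_filter.1 ha).2
    · intro a ha
      have ha' := Finset.mem_filter.1 ha
      refine hQ.2 z hz a ha'.1 ?_
      intro e
      rw [← e] at ha'
      exact hne ha'.2
  rcases hS.2 v hv z (hQ.1 hz) (Ne.symm hzv) with h | h
  · linarith
  · exact hne h

/-
Plan. k0 from common_nbr, k1 from two_cliques (with this k0), ks = k0 + k1 + 2. Let Q, Q' be cliques of S of size ≥ ks with a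
common vertex y. For v in Q' (indeed v in S): if v has ≥ k0 neighbours in Q, then v is adjacent (inner product α) to all
elements of Q other than v [A = neighbours of v in Q; z in Q \ A, z ≠ v is adjacent to all of A, and so is v: common_nbr gives
<v,z> > 0, hence = α by Code]. Let B = those v ∈ Q' which are adjacent to all elements of Q \ {v} (contains y and Q ∩ Q').
Case |B| ≥ k0 + 1: for u in Q, v in Q', u ≠ v: u is adjacent to all of B \ {u}, B \ {u} ⊂ Q' has ≥ k0 elements; if v ∈ B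
clear, otherwise v ∉ B \ {u}, v is adjacent to all of B \ {u}, common_nbr gives <u,v> > 0, so = α. So Q ∪ Q' is a clique.
Case |B| ≤ k0: K2 = Q' \ B (≥ k1 elements; each has < k0 neighbours in Q; y ∉ K2), K1 = Q \ {y} (≥ k1),
x = y in two_cliques: contradiction (an element of K1 ∩ K2 would be in Q ∩ Q' ⊂ B).
-/
theorem big_union {α : ℝ} (hα : 1 / 2 < α) (hα1 : α < 1) : ∃ ks : ℕ, 0 < ks ∧
    ∀ (d : ℕ) (S Q Q' : Finset (EuclideanSpace ℝ (Fin d))) (y : EuclideanSpace ℝ (Fin d)), Code α S →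
    Clq α S Q → Clq α S Q' → ks ≤ Q.card → ks ≤ Q'.card → y ∈ Q → y ∈ Q' → Clq α S (Q ∪ Q') := by
  obtain ⟨k0, _, h0⟩ := common_nbr hα hα1
  obtain ⟨k1, _, h1⟩ := two_cliques hα hα1 k0
  refine ⟨k0 + k1 + 2, by omega, ?_⟩
  intro d S Q Q' y hS hQ hQ' hc hc' hyQ hyQ'
  set B := Q'.filter (fun v => ∀ z ∈ Q, z ≠ v → inner ℝ v z = α) with hB
  have key : ∀ u ∈ Q, ∀ v ∈ Q', u ≠ v → inner ℝ u v = α := by
    by_cases hcard : k0 + 1 ≤ B.card
    · intro u hu v hv huv
      refine r2_claim h0 hS hQ' (hQ.1 hu) ?_ v hv (Ne.symm huv)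
      have hsub : B.erase u ⊆ Q'.filter (fun q => inner ℝ u q = α) := by
        intro b hb
        rw [Finset.mem_erase, hB, Finset.mem_filter] at hb
        rw [Finset.mem_filter]
        refine ⟨hb.2.1, ?_⟩
        rw [real_inner_comm]
        exact hb.2.2 u hu (Ne.symm hb.1)
      have h2 := Finset.card_le_card hsub
      have h3 := Finset.pred_card_le_card_erase (s := B) (a := u)
      omega
    · exfalso
      have hBsub : B ⊆ Q' := Finset.filter_subset _ _
      have hK2 : k1 ≤ (Q' \ B).card := by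
        rw [Finset.card_sdiff_of_subset hBsub]
        omega
      have hK1 : k1 ≤ (Q.erase y).card := by
        rw [Finset.card_erase_of_mem hyQ]
        omega
      have hyB : y ∈ B := by
        rw [hB, Finset.mem_filter]
        exact ⟨hyQ', fun z hz hzy => hQ.2 y hyQ z hz (Ne.symm hzy)⟩
      refine h1 d (Q.erase y) (Q' \ B) y hK1 hK2 (hS.1 y (hQ.1 hyQ)) ?_ ?_ ?_ ?_ ?_ ?_ ?_ ?_
      · intro a ha
        exact hS.1 a (hQ.1 (Finset.mem_of_mem_erase ha))
      · intro a ha b hb hab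
        exact hQ.2 a (Finset.mem_of_mem_erase ha) b (Finset.mem_of_mem_erase hb) hab
      · intro a ha
        exact hS.1 a (hQ'.1 (Finset.mem_sdiff.1 ha).1)
      · intro a ha b hb hab
        exact hQ'.2 a (Finset.mem_sdiff.1 ha).1 b (Finset.mem_sdiff.1 hb).1 hab
      · intro v hv a ha
        have hv' := Finset.mem_sdiff.1 hv
        have ha' := Finset.mem_of_mem_erase ha
        refine hS.2 a (hQ.1 ha') v (hQ'.1 hv'.1) ?_
        intro e
        apply hv'.2
        rw [hB, Finset.mem_filter]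
        refine ⟨hv'.1, fun z hz hzv => ?_⟩
        rw [← e] at hzv ⊢
        exact hQ.2 a ha' z hz (Ne.symm hzv)
      · intro v hv
        have hv' := Finset.mem_sdiff.1 hv
        by_contra hlt
        push Not at hlt
        apply hv'.2
        rw [hB, Finset.mem_filter]
        refine ⟨hv'.1, r2_claim h0 hS hQ (hQ'.1 hv'.1) ?_⟩
        have hsub : (Q.erase y).filter (fun a => inner ℝ a v = α) ⊆
            Q.filter (fun q => inner ℝ v q = α) := by
          intro a ha
          rw [Finset.mem_filter] at ha ⊢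
          refine ⟨Finset.mem_of_mem_erase ha.1, ?_⟩
          rw [real_inner_comm]
          exact ha.2
        have := Finset.card_le_card hsub
        omega
      · intro a ha
        exact hQ.2 y hyQ a (Finset.mem_of_mem_erase ha) (Ne.symm (Finset.ne_of_mem_erase ha))
      · intro a ha
        have ha' := Finset.mem_sdiff.1 ha
        refine hQ'.2 y hyQ' a ha'.1 ?_
        intro e
        apply ha'.2
        rw [← e]
        exact hyB
  refine ⟨Finset.union_subset hQ.1 hQ'.1, ?_⟩
  intro u hu v hv huv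
  rw [Finset.mem_union] at hu hv
  rcases hu with hu | hu <;> rcases hv with hv | hv
  · exact hQ.2 u hu v hv huv
  · exact key u hu v hv huv
  · rw [real_inner_comm]
    exact key v hv u hu (Ne.symm huv)
  · exact hQ'.2 u hu v hv huv

end Pool.Agent.Helper49.Sph
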