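import Mathlib
import Pool.Agent.Helper49.Sph.R2
import Pool.Agent.Helper17.Sph.Bukh

set_option autoImplicit false

open scoped Classical

namespace Pool.Agent.Helper49.Sph

/-
Plan. Let ks be given. x ∈ S. T = the y ∈ S with <x,y> = α which lie in no clique of S of size ≥ ks together with x.
By Helper17.Sph.bukh_ramsey (r = adjacency <y,z> = α, L = ks, s = 4) a large T contains a clique Q of size ks (then insert x Q
is a clique of S of size ≥ ks containing x and every y ∈ Q: contradiction, Q nonempty because ks > 0), or 4 vectors y_1..y_4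
with pairwise negative inner products and <x,y_i> = α: (4α)² ≤ ‖sum y_i‖² ≤ 4, contradiction to α > 1/2.
-/
theorem sporadic {α : ℝ} (hα : 1 / 2 < α) (hα1 : α < 1) (ks : ℕ) (hks : 0 < ks) : ∃ R : ℕ,
    ∀ (d : ℕ) (S : Finset (EuclideanSpace ℝ (Fin d))) (x : EuclideanSpace ℝ (Fin d)), Code α S → x ∈ S →
    (S.filter (fun y => inner ℝ x y = α ∧ ∀ Q, Clq α S Q → x ∈ Q → y ∈ Q → Q.card < ks)).card ≤ R := by
  obtain ⟨R, hR⟩ := Pool.Agent.Helper17.Sph.bukh_ramsey ks 4
  refine ⟨R, ?_⟩
  intro d S x hS hx
  by_contra hcon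
  set T := S.filter (fun y => inner ℝ x y = α ∧ ∀ Q, Clq α S Q → x ∈ Q → y ∈ Q → Q.card < ks)
    with hT
  have hTS : ∀ y ∈ T, y ∈ S := fun y hy => (Finset.mem_filter.1 hy).1
  have hTx : ∀ y ∈ T, inner ℝ x y = α := fun y hy => (Finset.mem_filter.1 hy).2.1
  have hxn : ‖x‖ = 1 := hS.1 x hx
  rcases hR (EuclideanSpace ℝ (Fin d)) (fun a b => inner ℝ a b = α)
    (fun a b hab => by rw [real_inner_comm]; exact hab) T (by omega) with
    ⟨Q, hQT, hQc, hQr⟩ | ⟨Q, hQT, hQc, hQr⟩
  · have hne : Q.Nonempty := by
      rw [← Finset.card_pos, hQc]; exact hks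
    obtain ⟨y, hy⟩ := hne
    have hcl : Clq α S (insert x Q) := by
      refine ⟨?_, ?_⟩
      · intro a ha
        rcases Finset.mem_insert.1 ha with h | h
        · rw [h]; exact hx
        · exact hTS a (hQT h)
      · intro a ha b hb hab
        rcases Finset.mem_insert.1 ha with h | h
        · rcases Finset.mem_insert.1 hb with h' | h'
          · exact absurd (h.trans h'.symm) hab
          · rw [h]; exact hTx b (hQT h')
        · rcases Finset.mem_insert.1 hb with h' | h'
          · rw [h', real_inner_comm]; exact hTx a (hQT h)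
          · exact hQr a h b h' hab
    have h1 := (Finset.mem_filter.1 (hQT hy)).2.2 (insert x Q) hcl (Finset.mem_insert_self _ _)
      (Finset.mem_insert_of_mem hy)
    have h2 : Q.card ≤ (insert x Q).card := Finset.card_le_card (Finset.subset_insert _ _)
    omega
  · have hneg : ∀ a ∈ Q, ∀ b ∈ Q, a ≠ b → (inner ℝ a b : ℝ) ≤ 0 := by
      intro a ha b hb hab
      rcases hS.2 a (hTS a (hQT ha)) b (hTS b (hQT hb)) hab with h | h
      · exact h.le
      · exact absurd h (hQr a ha b hb hab)
    have hrow : ∀ a ∈ Q, ∑ b ∈ Q, (inner ℝ a b : ℝ) ≤ 1 := by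
      intro a ha
      rw [← Finset.add_sum_erase Q (fun b => (inner ℝ a b : ℝ)) ha]
      have h1 : (inner ℝ a a : ℝ) = 1 := by
        rw [real_inner_self_eq_norm_sq, hS.1 a (hTS a (hQT ha))]; norm_num
      have h2 : ∑ b ∈ Q.erase a, (inner ℝ a b : ℝ) ≤ 0 := by
        refine Finset.sum_nonpos ?_
        intro b hb
        exact hneg a ha b (Finset.mem_of_mem_erase hb) (Finset.ne_of_mem_erase hb).symm
      linarith
    have hnorm : ‖∑ a ∈ Q, a‖ ^ 2 ≤ 4 := by
      rw [← real_inner_self_eq_norm_sq, sum_inner]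
      have h1 : ∀ a ∈ Q, (inner ℝ a (∑ b ∈ Q, b) : ℝ) ≤ 1 := by
        intro a ha
        rw [inner_sum]
        exact hrow a ha
      calc ∑ a ∈ Q, (inner ℝ a (∑ b ∈ Q, b) : ℝ) ≤ ∑ a ∈ Q, (1 : ℝ) := Finset.sum_le_sum h1
        _ = 4 := by rw [Finset.sum_const, hQc]; norm_num
    have hin : (inner ℝ x (∑ a ∈ Q, a) : ℝ) = 4 * α := by
      rw [inner_sum, Finset.sum_congr rfl (fun a ha => hTx a (hQT ha)), Finset.sum_const, hQc]
      norm_num
    have hcs := abs_real_inner_le_norm x (∑ a ∈ Q, a)
    rw [hin, hxn, one_mul, abs_of_pos (by linarith)] at hcs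
    nlinarith [norm_nonneg (∑ a ∈ Q, a)]

/-
Plan. General greedy: E symmetric relation on S, every x ∈ S has ≤ R elements y ∈ S with E x y; then there is P ⊆ S
without pairs E x y (x ≠ y in P) and S.card ≤ (R+1) P.card: a maximal such P (Finset.exists_maximal or strong induction), every
s ∈ S \ P has a partner in P.
-/
theorem greedy {V : Type*} (S : Finset V) (E : V → V → Prop) (hE : ∀ x y, E x y → E y x) (R : ℕ)
    (hR : ∀ x ∈ S, (S.filter (fun y => E x y)).card ≤ R) :
    ∃ P ⊆ S, (∀ x ∈ P, ∀ y ∈ P, x ≠ y → ¬ E x y) ∧ S.card ≤ (R + 1) * P.card := by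
  induction S using Finset.strongInduction with
  | H S ih =>
    rcases S.eq_empty_or_nonempty with he | ⟨x, hx⟩
    · exact ⟨∅, Finset.empty_subset _, by simp, by rw [he]; simp⟩
    · set S' := S.filter (fun y => y ≠ x ∧ ¬ E x y) with hS'
      have hsub : S' ⊆ S := Finset.filter_subset _ _
      have hxS' : x ∉ S' := fun h => (Finset.mem_filter.1 h).2.1 rfl
      have hss : S' ⊂ S := (Finset.ssubset_iff_of_subset hsub).2 ⟨x, hx, hxS'⟩
      obtain ⟨P, hPS, hPE, hPc⟩ := ih S' hss (by
        intro y hy
        exact (Finset.card_le_card (Finset.filter_subset_filter _ hsub)).trans (hR y (hsub hy)))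
      have hxP : x ∉ P := fun h => hxS' (hPS h)
      refine ⟨insert x P, ?_, ?_, ?_⟩
      · intro a ha
        rcases Finset.mem_insert.1 ha with h | h
        · rw [h]; exact hx
        · exact hsub (hPS h)
      · intro a ha b hb hab
        rcases Finset.mem_insert.1 ha with h | h
        · rcases Finset.mem_insert.1 hb with h' | h'
          · exact absurd (h.trans h'.symm) hab
          · rw [h]; exact (Finset.mem_filter.1 (hPS h')).2.2
        · rcases Finset.mem_insert.1 hb with h' | h'
          · rw [h']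
            intro hh
            exact (Finset.mem_filter.1 (hPS h)).2.2 (hE _ _ hh)
          · exact hPE a h b h' hab
      · rw [Finset.card_insert_of_notMem hxP]
        have h1 : S ⊆ S' ∪ insert x (S.filter (fun y => E x y)) := by
          intro a ha
          by_cases hax : a = x
          · exact Finset.mem_union_right _ (by rw [hax]; exact Finset.mem_insert_self _ _)
          · by_cases hE' : E x a
            · exact Finset.mem_union_right _
                (Finset.mem_insert_of_mem (Finset.mem_filter.2 ⟨ha, hE'⟩))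
            · exact Finset.mem_union_left _ (Finset.mem_filter.2 ⟨ha, hax, hE'⟩)
        have h2 := Finset.card_le_card h1
        have h3 := Finset.card_union_le S' (insert x (S.filter (fun y => E x y)))
        have h4 := Finset.card_insert_le x (S.filter (fun y => E x y))
        have h5 := hR x hx
        calc S.card ≤ S'.card + ((S.filter (fun y => E x y)).card + 1) := by omega
          _ ≤ (R + 1) * P.card + (R + 1) := by omega
          _ = (R + 1) * (P.card + 1) := by ring

end Pool.Agent.Helper49.Sph
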