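import Mathlib
import Pool.Agent.Helper49.Sph.CDef

set_option autoImplicit false

open scoped Classical

namespace Pool.Agent.Helper49.Sph

private theorem c3_mem {d : ℕ} {α : ℝ} {P : Finset (EuclideanSpace ℝ (Fin d))}
    {x y : EuclideanSpace ℝ (Fin d)} : y ∈ cl α P x ↔ y ∈ P ∧ (y = x ∨ inner ℝ x y = α) := by
  simp [cl]

private theorem c3_self {d : ℕ} {α : ℝ} {P : Finset (EuclideanSpace ℝ (Fin d))}
    {x : EuclideanSpace ℝ (Fin d)} (hx : x ∈ P) : x ∈ cl α P x := c3_mem.2 ⟨hx, Or.inl rfl⟩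

private theorem c3_pair {d : ℕ} {α : ℝ} {P : Finset (EuclideanSpace ℝ (Fin d))}
    (hT : Trans α P) {x y z : EuclideanSpace ℝ (Fin d)} (hx : x ∈ P) (hy : y ∈ cl α P x)
    (hz : z ∈ cl α P x) (hyz : y ≠ z) : inner ℝ y z = α := by
  rw [c3_mem] at hy hz
  obtain ⟨hyP, hy⟩ := hy
  obtain ⟨hzP, hz⟩ := hz
  rcases hy with rfl | hy
  · rcases hz with rfl | hz
    · exact absurd rfl hyz
    · exact hz
  · rcases hz with rfl | hz
    · rw [real_inner_comm]; exact hy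
    · exact hT y hyP x hx z hzP hyz (by rw [real_inner_comm]; exact hy) hz

private theorem c3_cl {d : ℕ} {α : ℝ} {P : Finset (EuclideanSpace ℝ (Fin d))}
    (hT : Trans α P) {x y : EuclideanSpace ℝ (Fin d)} (hx : x ∈ P) (hy : y ∈ cl α P x) :
    cl α P y = cl α P x := by
  have hyP := (c3_mem.1 hy).1
  ext z
  constructor
  · intro hz
    by_cases h : x = z
    · rw [← h]; exact c3_self hx
    · have hzP := (c3_mem.1 hz).1
      refine c3_mem.2 ⟨hzP, Or.inr ?_⟩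
      rcases (c3_mem.1 hy).2 with rfl | h1
      · rcases (c3_mem.1 hz).2 with h2 | h2
        · exact absurd h2.symm h
        · exact h2
      · rcases (c3_mem.1 hz).2 with rfl | h2
        · exact h1
        · exact hT x hx y hyP z hzP h h1 h2
  · intro hz
    by_cases h : y = z
    · rw [← h]; exact c3_self hyP
    · exact c3_mem.2 ⟨(c3_mem.1 hz).1, Or.inr (c3_pair hT hx hy hz h)⟩

private theorem c3_sum {d : ℕ} {α : ℝ} {P : Finset (EuclideanSpace ℝ (Fin d))}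
    (hP : Code α P) (hT : Trans α P) {x y : EuclideanSpace ℝ (Fin d)} (hx : x ∈ P)
    (hy : y ∈ cl α P x) (f : ℝ → ℝ) :
    ∑ z ∈ cl α P x, f (inner ℝ y z) = f 1 + (((cl α P x).card : ℝ) - 1) * f α := by
  rw [← Finset.add_sum_erase _ _ hy]
  have hyP := (c3_mem.1 hy).1
  have h1 : (inner ℝ y y : ℝ) = 1 := by
    rw [real_inner_self_eq_norm_sq, hP.1 y hyP]; norm_num
  rw [h1]
  congr 1
  have h2 : ∀ z ∈ (cl α P x).erase y, f (inner ℝ y z) = f α := by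
    intro z hz
    rw [Finset.mem_erase] at hz
    rw [c3_pair hT hx hy hz.2 (Ne.symm hz.1)]
  rw [Finset.sum_congr rfl h2, Finset.sum_const, Finset.card_erase_of_mem hy, nsmul_eq_mul]
  have h3 : 1 ≤ (cl α P x).card := Finset.card_pos.2 ⟨y, hy⟩
  rw [Nat.cast_sub h3, Nat.cast_one]

private theorem c3_rho {d : ℕ} {α : ℝ} {P : Finset (EuclideanSpace ℝ (Fin d))}
    (hP : Code α P) (hT : Trans α P) {x : EuclideanSpace ℝ (Fin d)} (hx : x ∈ P) :
    (∀ y ∈ cl α P x, (inner ℝ y (((cl α P x).card : ℝ)⁻¹ • ∑ z ∈ cl α P x, z) : ℝ) =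
      ((cl α P x).card : ℝ)⁻¹ * (1 + (((cl α P x).card : ℝ) - 1) * α)) := by
  intro y hy
  rw [inner_smul_right, inner_sum]
  have := c3_sum hP hT hx hy (fun t => t)
  rw [this]

private theorem c3_rr {d : ℕ} {α : ℝ} {P : Finset (EuclideanSpace ℝ (Fin d))}
    (hP : Code α P) (hT : Trans α P) {x : EuclideanSpace ℝ (Fin d)} (hx : x ∈ P) :
    ∀ y ∈ cl α P x, (inner ℝ (rho α P x) (rho α P y) : ℝ) =
      inner ℝ x y - ((cl α P x).card : ℝ)⁻¹ * (1 + (((cl α P x).card : ℝ) - 1) * α) := by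
  intro y hy
  have hs : 1 ≤ (cl α P x).card := Finset.card_pos.2 ⟨x, c3_self hx⟩
  have hs' : ((cl α P x).card : ℝ) ≠ 0 := by positivity
  have h1 := c3_rho hP hT hx
  unfold rho
  rw [c3_cl hT hx hy]
  set a : EuclideanSpace ℝ (Fin d) := ((cl α P x).card : ℝ)⁻¹ • ∑ z ∈ cl α P x, z with ha
  have h2 := h1 x (c3_self hx)
  have h3 := h1 y hy
  have h4 : (inner ℝ a a : ℝ) =
      ((cl α P x).card : ℝ)⁻¹ * (1 + (((cl α P x).card : ℝ) - 1) * α) := by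
    conv_lhs => rw [ha, inner_smul_left, sum_inner]
    rw [← ha, Finset.sum_congr rfl h1, Finset.sum_const, nsmul_eq_mul]
    simp only [conj_trivial]
    rw [← mul_assoc, inv_mul_cancel₀ hs', one_mul]
  rw [inner_sub_left, inner_sub_right, inner_sub_right, real_inner_comm y a, h2, h3, h4]
  ring

/-
Plan. s = (cl α P x).card ≥ 1. All elements of cl α P x have the same class (Trans, symmetric), and two different
elements of the class have inner product α. So for y in cl α P x, with a = centroid: <y, a> = (1 + (s-1)α)/s = <a, a>,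
and <rho x, rho y> = <x, y> - (1 + (s-1) α)/s, which is (1-α)(1-1/s) for y = x and -(1-α)/s for y ≠ x.
-/
theorem c3_diag {d : ℕ} {α : ℝ} (h0 : 0 < α) (h1 : α < 1) (P : Finset (EuclideanSpace ℝ (Fin d)))
    (hP : Code α P) (hT : Trans α P) (x : EuclideanSpace ℝ (Fin d)) (hx : x ∈ P) :
    (inner ℝ x (rho α P x) : ℝ) = (1 - α) * (1 - ((cl α P x).card : ℝ)⁻¹) := by
  have hs : 1 ≤ (cl α P x).card := Finset.card_pos.2 ⟨x, c3_self hx⟩
  have hs' : ((cl α P x).card : ℝ) ≠ 0 := by positivity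
  unfold rho
  rw [inner_sub_right, c3_rho hP hT hx x (c3_self hx), real_inner_self_eq_norm_sq, hP.1 x hx]
  field_simp
  ring

/-- value is `(1-α)²(1-1/s)` -/
theorem c3_same1 {d : ℕ} {α : ℝ} (h0 : 0 < α) (h1 : α < 1) (P : Finset (EuclideanSpace ℝ (Fin d)))
    (hP : Code α P) (hT : Trans α P) (x : EuclideanSpace ℝ (Fin d)) (hx : x ∈ P) :
    ∑ y ∈ cl α P x, (inner ℝ x y : ℝ) * inner ℝ (rho α P x) (rho α P y) ≤ 1 := by
  have hs : 1 ≤ (cl α P x).card := Finset.card_pos.2 ⟨x, c3_self hx⟩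
  have hs1 : (1 : ℝ) ≤ ((cl α P x).card : ℝ) := by exact_mod_cast hs
  have hs' : ((cl α P x).card : ℝ) ≠ 0 := by positivity
  rw [Finset.sum_congr rfl (fun y hy => by rw [c3_rr hP hT hx y hy])]
  have h2 := c3_sum hP hT hx (c3_self hx) (fun t => t * (t - ((cl α P x).card : ℝ)⁻¹ *
    (1 + (((cl α P x).card : ℝ) - 1) * α)))
  rw [h2]
  set s : ℝ := ((cl α P x).card : ℝ) with hsdef
  have h3 : 1 * (1 - s⁻¹ * (1 + (s - 1) * α)) + (s - 1) * (α * (α - s⁻¹ * (1 + (s - 1) * α))) =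
      (1 - α) ^ 2 * (1 - s⁻¹) := by
    field_simp
    ring
  rw [h3]
  have h4 : 0 ≤ s⁻¹ := by positivity
  have h5 : s⁻¹ ≤ 1 := inv_le_one_of_one_le₀ hs1
  have h6 : (1 - α) ^ 2 ≤ 1 := by nlinarith
  have h7 : 0 ≤ (1 - α) ^ 2 := sq_nonneg _
  nlinarith

/-- value is `(1-α)²(1-1/s)² + (s-1)α(1-α)²/s²` -/
theorem c3_same2 {d : ℕ} {α : ℝ} (h0 : 0 < α) (h1 : α < 1) (P : Finset (EuclideanSpace ℝ (Fin d)))
    (hP : Code α P) (hT : Trans α P) (x : EuclideanSpace ℝ (Fin d)) (hx : x ∈ P) :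
    ∑ y ∈ cl α P x, (inner ℝ x y : ℝ) * (inner ℝ (rho α P x) (rho α P y)) ^ 2 ≤ 1 := by
  have hs : 1 ≤ (cl α P x).card := Finset.card_pos.2 ⟨x, c3_self hx⟩
  have hs1 : (1 : ℝ) ≤ ((cl α P x).card : ℝ) := by exact_mod_cast hs
  have hs' : ((cl α P x).card : ℝ) ≠ 0 := by positivity
  rw [Finset.sum_congr rfl (fun y hy => by rw [c3_rr hP hT hx y hy])]
  have h2 := c3_sum hP hT hx (c3_self hx) (fun t => t * (t - ((cl α P x).card : ℝ)⁻¹ *
    (1 + (((cl α P x).card : ℝ) - 1) * α)) ^ 2)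
  rw [h2]
  set s : ℝ := ((cl α P x).card : ℝ) with hsdef
  have h3 : 1 * (1 - s⁻¹ * (1 + (s - 1) * α)) ^ 2 +
      (s - 1) * (α * (α - s⁻¹ * (1 + (s - 1) * α)) ^ 2) =
      (1 - α) ^ 2 * ((1 - s⁻¹) * (1 - s⁻¹ + α * s⁻¹)) := by
    field_simp
    ring
  rw [h3]
  have h4 : 0 ≤ s⁻¹ := by positivity
  have h5 : s⁻¹ ≤ 1 := inv_le_one_of_one_le₀ hs1
  have h6 : (1 - α) ^ 2 ≤ 1 := by nlinarith
  have h7 : 0 ≤ (1 - α) ^ 2 := sq_nonneg _
  have h8 : 0 ≤ (1 - s⁻¹) * (1 - s⁻¹ + α * s⁻¹) :=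
    mul_nonneg (by linarith) (by nlinarith)
  have h9 : (1 - s⁻¹) * (1 - s⁻¹ + α * s⁻¹) ≤ 1 := by
    have : 1 - s⁻¹ + α * s⁻¹ ≤ 1 := by nlinarith
    nlinarith
  nlinarith

end Pool.Agent.Helper49.Sph
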