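import Mathlib
import Pool.Agent.Helper49.Sph.C1
import Pool.Agent.Helper49.Sph.C2
import Pool.Agent.Helper49.Sph.C3

set_option autoImplicit false

open scoped Classical

namespace Pool.Agent.Helper49.Sph

section Aux

variable {d : ℕ} {α : ℝ} {P : Finset (EuclideanSpace ℝ (Fin d))}

private theorem self_mem_cl {x : EuclideanSpace ℝ (Fin d)} (hx : x ∈ P) : x ∈ cl α P x :=
  Finset.mem_filter.2 ⟨hx, Or.inl rfl⟩

private theorem cl_clique (hT : Trans α P) {x : EuclideanSpace ℝ (Fin d)} (hx : x ∈ P) :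
    ∀ y ∈ cl α P x, ∀ z ∈ cl α P x, y ≠ z → inner ℝ y z = α := by
  intro y hy z hz hyz
  obtain ⟨hyP, hy⟩ := Finset.mem_filter.1 hy
  obtain ⟨hzP, hz⟩ := Finset.mem_filter.1 hz
  rcases hy with rfl | hy
  · rcases hz with rfl | hz
    · exact absurd rfl hyz
    · exact hz
  · rcases hz with rfl | hz
    · rw [real_inner_comm]
      exact hy
    · exact hT y hyP x hx z hzP hyz (by rw [real_inner_comm]; exact hy) hz

private theorem cl_card_le (h0 : 0 < α) (h1 : α < 1) (hP : Code α P) (hT : Trans α P)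
    {x : EuclideanSpace ℝ (Fin d)} (hx : x ∈ P) : (cl α P x).card ≤ d :=
  clique_card h0 h1 _ (fun y hy => hP.1 y (Finset.mem_filter.1 hy).1) (cl_clique hT hx)

private theorem cl_card_pos {x : EuclideanSpace ℝ (Fin d)} (hx : x ∈ P) :
    1 ≤ (cl α P x).card :=
  Finset.card_pos.2 ⟨x, self_mem_cl hx⟩

/-- the complement of the class -/
private noncomputable def nc (α : ℝ) (P : Finset (EuclideanSpace ℝ (Fin d)))
    (x : EuclideanSpace ℝ (Fin d)) : Finset (EuclideanSpace ℝ (Fin d)) :=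
  P.filter (fun y => ¬ (y = x ∨ inner ℝ x y = α))

private theorem split (x : EuclideanSpace ℝ (Fin d)) (f : EuclideanSpace ℝ (Fin d) → ℝ) :
    ∑ y ∈ P, f y = ∑ y ∈ cl α P x, f y + ∑ y ∈ nc α P x, f y :=
  (Finset.sum_filter_add_sum_filter_not P _ f).symm

private theorem nc_neg (hP : Code α P) {x y : EuclideanSpace ℝ (Fin d)} (hx : x ∈ P)
    (hy : y ∈ nc α P x) : (inner ℝ x y : ℝ) < 0 := by
  obtain ⟨hyP, hy⟩ := Finset.mem_filter.1 hy
  push Not at hy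
  rcases hP.2 x hx y hyP (Ne.symm hy.1) with h | h
  · exact h
  · exact absurd h hy.2

private theorem sum_diag (h0 : 0 < α) (h1 : α < 1) (hP : Code α P) (hT : Trans α P) :
    (1 - α) * ((P.card : ℝ) - (d + 1)) / 2 ≤ ∑ x ∈ P, (inner ℝ x (rho α P x) : ℝ) := by
  have hP1 : (P.filter fun x => (cl α P x).card = 1).card ≤ d + 1 := by
    apply neg_card
    intro x hx y hy hxy
    obtain ⟨hxP, hx1⟩ := Finset.mem_filter.1 hx
    obtain ⟨hyP, -⟩ := Finset.mem_filter.1 hy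
    rcases hP.2 x hxP y hyP hxy with h | h
    · exact h
    · exfalso
      have h2 : ({x, y} : Finset _) ⊆ cl α P x := by
        intro z hz
        rw [Finset.mem_insert, Finset.mem_singleton] at hz
        rcases hz with rfl | rfl
        · exact self_mem_cl hxP
        · exact Finset.mem_filter.2 ⟨hyP, Or.inr h⟩
      have h3 := Finset.card_le_card h2
      rw [Finset.card_pair hxy, hx1] at h3
      omega
  have hlow : ∀ x ∈ P, (1 - α) / 2 - (if (cl α P x).card = 1 then (1 - α) / 2 else 0) ≤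
      (inner ℝ x (rho α P x) : ℝ) := by
    intro x hx
    rw [c3_diag h0 h1 P hP hT x hx]
    have hs := cl_card_pos (α := α) hx
    by_cases h : (cl α P x).card = 1
    · rw [if_pos h, h]
      simp
    · rw [if_neg h]
      have h2 : (2 : ℝ) ≤ (cl α P x).card := by
        have : 2 ≤ (cl α P x).card := by omega
        exact_mod_cast this
      have h3 : ((cl α P x).card : ℝ)⁻¹ ≤ 2⁻¹ := inv_anti₀ (by norm_num) h2
      nlinarith
  have hsum := Finset.sum_le_sum hlow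
  rw [Finset.sum_sub_distrib, Finset.sum_const, ← Finset.sum_filter, Finset.sum_const,
    nsmul_eq_mul, nsmul_eq_mul] at hsum
  refine le_trans ?_ hsum
  have h4 : ((P.filter fun x => (cl α P x).card = 1).card : ℝ) ≤ d + 1 := by exact_mod_cast hP1
  nlinarith

private theorem sum_neg_le (h0 : 0 < α) (h1 : α < 1) (hP : Code α P) (hT : Trans α P) :
    ∑ x ∈ P, ∑ y ∈ nc α P x, -(inner ℝ x y : ℝ) ≤ P.card * d := by
  have h2 : (0 : ℝ) ≤ ∑ x ∈ P, ∑ y ∈ P, (inner ℝ x y : ℝ) := by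
    have h3 : (inner ℝ (∑ x ∈ P, x) (∑ y ∈ P, y) : ℝ) = ∑ x ∈ P, ∑ y ∈ P, (inner ℝ x y : ℝ) := by
      rw [sum_inner]
      exact Finset.sum_congr rfl fun x _ => inner_sum _ _ _
    rw [← h3]
    exact real_inner_self_nonneg
  have h4 : ∀ x ∈ P, ∑ y ∈ P, (inner ℝ x y : ℝ) ≤ d - ∑ y ∈ nc α P x, -(inner ℝ x y : ℝ) := by
    intro x hx
    rw [split (α := α) x, Finset.sum_neg_distrib, sub_neg_eq_add]
    refine add_le_add ?_ le_rfl
    calc ∑ y ∈ cl α P x, (inner ℝ x y : ℝ) ≤ ∑ _y ∈ cl α P x, (1 : ℝ) := by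
          refine Finset.sum_le_sum fun y hy => ?_
          have hy' := (Finset.mem_filter.1 hy).1
          have := real_inner_le_norm x y
          rwa [hP.1 x hx, hP.1 y hy', one_mul] at this
      _ = ((cl α P x).card : ℝ) := by simp
      _ ≤ d := by exact_mod_cast cl_card_le h0 h1 hP hT hx
  have h5 := Finset.sum_le_sum h4
  rw [Finset.sum_sub_distrib, Finset.sum_const, nsmul_eq_mul] at h5
  linarith

private theorem sum_sq_le (h0 : 0 < α) (h1 : α < 1) (hP : Code α P) (hT : Trans α P) :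
    ∑ x ∈ P, ∑ y ∈ nc α P x, -(inner ℝ x y : ℝ) * (inner ℝ (rho α P x) (rho α P y)) ^ 2 ≤
      P.card := by
  have h2 := tensor3 P (fun x => x) (rho α P)
  have h4 : ∀ x ∈ P, ∑ y ∈ P, (inner ℝ x y : ℝ) * (inner ℝ (rho α P x) (rho α P y)) ^ 2 ≤
      1 - ∑ y ∈ nc α P x, -(inner ℝ x y : ℝ) * (inner ℝ (rho α P x) (rho α P y)) ^ 2 := by
    intro x hx
    rw [split (α := α) x]
    have h5 := c3_same2 h0 h1 P hP hT x hx
    have h6 : ∑ y ∈ nc α P x, -(inner ℝ x y : ℝ) * (inner ℝ (rho α P x) (rho α P y)) ^ 2 =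
        -∑ y ∈ nc α P x, (inner ℝ x y : ℝ) * (inner ℝ (rho α P x) (rho α P y)) ^ 2 := by
      rw [← Finset.sum_neg_distrib]
      exact Finset.sum_congr rfl fun y _ => by ring
    rw [h6]
    linarith
  have h5 := Finset.sum_le_sum h4
  rw [Finset.sum_sub_distrib, Finset.sum_const, nsmul_eq_mul, mul_one] at h5
  linarith

private theorem F_le (h0 : 0 < α) (h1 : α < 1) (hP : Code α P) (hT : Trans α P) (hd : 1 ≤ d) :
    ∑ x ∈ P, ∑ y ∈ P, (inner ℝ x y : ℝ) * inner ℝ (rho α P x) (rho α P y) ≤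
      2 * P.card * √d := by
  have hd1 : (1 : ℝ) ≤ d := by exact_mod_cast hd
  have hsq : 1 ≤ √(d : ℝ) := Real.one_le_sqrt.2 hd1
  have hs0 : 0 < √(d : ℝ) := by linarith
  have hss : √(d : ℝ) * √(d : ℝ) = d := Real.mul_self_sqrt (by linarith)
  have h2 : ∀ x ∈ P, ∑ y ∈ P, (inner ℝ x y : ℝ) * inner ℝ (rho α P x) (rho α P y) ≤
      1 + ((√(d : ℝ))⁻¹ / 2 * ∑ y ∈ nc α P x, -(inner ℝ x y : ℝ) +
        √(d : ℝ) / 2 * ∑ y ∈ nc α P x,
          -(inner ℝ x y : ℝ) * (inner ℝ (rho α P x) (rho α P y)) ^ 2) := by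
    intro x hx
    rw [split (α := α) x]
    refine add_le_add (c3_same1 h0 h1 P hP hT x hx) ?_
    rw [Finset.mul_sum, Finset.mul_sum, ← Finset.sum_add_distrib]
    refine Finset.sum_le_sum fun y hy => ?_
    have h3 := nc_neg hP hx hy
    set a : ℝ := inner ℝ x y
    set g : ℝ := inner ℝ (rho α P x) (rho α P y)
    have h4 : -g ≤ (√(d : ℝ))⁻¹ / 2 + √(d : ℝ) / 2 * g ^ 2 := by
      have h5 : 0 ≤ √(d : ℝ) / 2 * (g + (√(d : ℝ))⁻¹) ^ 2 := by positivity
      have h6 : √(d : ℝ) / 2 * (g + (√(d : ℝ))⁻¹) ^ 2 =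
          √(d : ℝ) / 2 * g ^ 2 + g + (√(d : ℝ))⁻¹ / 2 := by
        field_simp
        ring
      linarith
    nlinarith
  have h3 := Finset.sum_le_sum h2
  rw [Finset.sum_add_distrib, Finset.sum_const, nsmul_eq_mul, mul_one, Finset.sum_add_distrib,
    ← Finset.mul_sum, ← Finset.mul_sum] at h3
  have h4 := sum_neg_le h0 h1 hP hT
  have h5 := sum_sq_le h0 h1 hP hT
  refine h3.trans ?_
  have hn : (0 : ℝ) ≤ P.card := by positivity
  have h6 : (√(d : ℝ))⁻¹ / 2 * ∑ x ∈ P, ∑ y ∈ nc α P x, -(inner ℝ x y : ℝ) ≤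
      P.card * √(d : ℝ) / 2 := by
    calc _ ≤ (√(d : ℝ))⁻¹ / 2 * (P.card * d) :=
          mul_le_mul_of_nonneg_left h4 (by positivity)
      _ = P.card * ((√(d : ℝ))⁻¹ * d) / 2 := by ring
      _ = P.card * √(d : ℝ) / 2 := by
          have h8 : (√(d : ℝ))⁻¹ * d = √(d : ℝ) := by
            rw [inv_mul_eq_div, div_eq_iff hs0.ne', hss]
          rw [h8]
  have h7 : √(d : ℝ) / 2 * ∑ x ∈ P, ∑ y ∈ nc α P x,
      -(inner ℝ x y : ℝ) * (inner ℝ (rho α P x) (rho α P y)) ^ 2 ≤ √(d : ℝ) / 2 * P.card :=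
    mul_le_mul_of_nonneg_left h5 (by positivity)
  nlinarith

end Aux

/-
Plan. n = P.card, s_x = (cl α P x).card ≤ d (clique_card: the class is a clique by Trans).
(1) sum_x <x, rho x> = (1-α) sum_x (1 - 1/s_x) ≥ (1-α)(n - (d+1))/2: the x with s_x = 1 are pairwise negative, so at
most d+1 of them (neg_card), the others have 1 - 1/s_x ≥ 1/2.
(2) tensor2 with x = id, ρ = rho: (sum <x, rho x>)² ≤ d * F, F = sum_{x,y} <x,y><rho x, rho y>. Split the inner sum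
over y ∈ P into y ∈ cl x (≤ 1 by c3_same1) and y ∉ cl x, where <x,y> < 0.
(3) Σ' = sum over pairs with y ∉ cl x. Σ' <x,y><rho x,rho y> ≤ Σ' |<x,y>| |<rho x,rho y>| ≤
(Σ' |<x,y>| <rho x,rho y>²)^(1/2) (Σ' |<x,y>|)^(1/2) (Cauchy-Schwarz). tensor3 and c3_same2 give
Σ' |<x,y>| <rho x,rho y>² ≤ n; ‖sum x‖² ≥ 0 and sum_{y ∈ cl x} <x,y> ≤ s_x ≤ d give Σ' |<x,y>| ≤ n d.
(4) So ((1-α)(n-d-1)/2)² ≤ d (n + n sqrt d) ≤ 2 n d^(3/2) when n ≥ d+1 (d ≥ 1 if P is nonempty). If n ≤ 2(d+1) ≤ 4d done;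
otherwise n - d - 1 ≥ n/2, so (1-α)² n²/16 ≤ 2 n d^(3/2).
-/
theorem core {d : ℕ} {α : ℝ} (h0 : 0 < α) (h1 : α < 1) (P : Finset (EuclideanSpace ℝ (Fin d)))
    (hP : Code α P) (hT : Trans α P) :
    (P.card : ℝ) ≤ 32 / (1 - α) ^ 2 * (d : ℝ) ^ (3 / 2 : ℝ) := by
  have ha : 0 < 1 - α := by linarith
  rcases P.eq_empty_or_nonempty with hE | ⟨x0, hx0⟩
  · rw [hE]
    simp only [Finset.card_empty, Nat.cast_zero]
    positivity
  have hd : 1 ≤ d := (cl_card_pos (α := α) hx0).trans (cl_card_le h0 h1 hP hT hx0)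
  have hd1 : (1 : ℝ) ≤ d := by exact_mod_cast hd
  have hsq : 1 ≤ √(d : ℝ) := Real.one_le_sqrt.2 hd1
  have hpow : (d : ℝ) ^ (3 / 2 : ℝ) = d * √(d : ℝ) := by
    rw [show (3 / 2 : ℝ) = 1 + 1 / 2 by norm_num, Real.rpow_add (by linarith), Real.rpow_one,
      Real.sqrt_eq_rpow]
  rw [hpow]
  have hn0 : (0 : ℝ) < P.card := by exact_mod_cast Finset.card_pos.2 ⟨x0, hx0⟩
  have ha2 : (1 - α) ^ 2 ≤ 1 := pow_le_one₀ ha.le (by linarith)
  have hinv : 32 ≤ 32 / (1 - α) ^ 2 := by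
    rw [le_div_iff₀ (by positivity)]
    nlinarith
  by_cases hbig : (P.card : ℝ) ≤ 2 * (d + 1)
  · calc (P.card : ℝ) ≤ 32 * (d * √(d : ℝ)) := by nlinarith
      _ ≤ _ := mul_le_mul_of_nonneg_right hinv (by positivity)
  · rw [not_le] at hbig
    have h2 := sum_diag h0 h1 hP hT
    have h3 := tensor2 P (fun x => x) (rho α P)
    have h4 := F_le h0 h1 hP hT hd
    have h5 : (1 - α) * P.card / 4 ≤ ∑ x ∈ P, (inner ℝ x (rho α P x) : ℝ) := by
      refine le_trans ?_ h2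
      nlinarith
    have h6 : ((1 - α) * P.card / 4) ^ 2 ≤ d * (2 * P.card * √(d : ℝ)) := by
      calc ((1 - α) * P.card / 4) ^ 2 ≤ (∑ x ∈ P, (inner ℝ x (rho α P x) : ℝ)) ^ 2 :=
            pow_le_pow_left₀ (by positivity) h5 2
        _ ≤ _ := h3
        _ ≤ _ := mul_le_mul_of_nonneg_left h4 (by positivity)
    rw [div_mul_eq_mul_div, le_div_iff₀ (by positivity)]
    have h7 : (P.card : ℝ) * (P.card * (1 - α) ^ 2) ≤ P.card * (32 * (d * √(d : ℝ))) := by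
      nlinarith
    exact le_of_mul_le_mul_left h7 hn0

end Pool.Agent.Helper49.Sph
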