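import Mathlib

set_option autoImplicit false

namespace Pool.Agent.Helper49.Sph

/-
Plan (gs_real). Put e(u) = ZMod.stdAddChar u = exp(2 pi i u.val / p); the cosine is the real part of e(u).
T = sum_x e(a x^2 + b x). T * conj T = sum_{y,h} e(a((y+h)^2 - y^2) + b h) = sum_h e(a h^2 + b h) sum_y e(2 a h y)
= p (inner sum is 0 unless 2 a h = 0, i.e. h = 0, because p is odd; AddChar.sum_mulShift), so |T| = sqrt p
and |Re T| <= |T|.
(lin_real): real part of sum_x e(b x) = 0.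
-/
theorem gs_cos (p : ℕ) [Fact p.Prime] (u : ZMod p) :
    Real.cos (2 * Real.pi * (u.val : ℝ) / p) = (ZMod.stdAddChar (N := p) u).re := by
  have h1 : ((u.val : ℤ) : ZMod p) = u := by
    rw [Int.cast_natCast, ZMod.natCast_zmod_val]
  have h2 := ZMod.stdAddChar_coe (N := p) (u.val : ℤ)
  rw [h1] at h2
  rw [h2]
  have h3 : (2 * (Real.pi : ℂ) * Complex.I * ((u.val : ℤ) : ℂ) / (p : ℂ)) =
      ((2 * Real.pi * (u.val : ℝ) / p : ℝ) : ℂ) * Complex.I := by
    push_cast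
    ring
  rw [h3, Complex.exp_ofReal_mul_I_re]

theorem gs_normSq (p : ℕ) [Fact p.Prime] (hp : p ≠ 2) (a b : ZMod p) (ha : a ≠ 0) :
    (∑ x : ZMod p, ZMod.stdAddChar (N := p) (a * x ^ 2 + b * x)) *
      (starRingEnd ℂ) (∑ x : ZMod p, ZMod.stdAddChar (N := p) (a * x ^ 2 + b * x)) = (p : ℂ) := by
  set ψ : AddChar (ZMod p) ℂ := ZMod.stdAddChar (N := p) with hψ
  have hprim : ψ.IsPrimitive := ZMod.isPrimitive_stdAddChar p
  have h2 : (2 : ZMod p) ≠ 0 := by
    intro h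
    have h3 : ((2 : ℕ) : ZMod p) = 0 := by exact_mod_cast h
    rw [ZMod.natCast_eq_zero_iff] at h3
    exact hp ((Nat.prime_dvd_prime_iff_eq Fact.out Nat.prime_two).mp h3)
  rw [map_sum, Finset.sum_mul_sum]
  have e1 : ∀ x y : ZMod p, ψ (a * x ^ 2 + b * x) * (starRingEnd ℂ) (ψ (a * y ^ 2 + b * y)) =
      ψ (a * (x ^ 2 - y ^ 2) + b * (x - y)) := by
    intro x y
    rw [← AddChar.map_neg_eq_conj, ← AddChar.map_add_eq_mul]
    congr 1
    ring
  simp only [e1]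
  rw [Finset.sum_comm]
  have e2 : ∀ y : ZMod p, ∑ x : ZMod p, ψ (a * (x ^ 2 - y ^ 2) + b * (x - y)) =
      ∑ h : ZMod p, ψ (a * h ^ 2 + b * h) * ψ (y * (2 * a * h)) := by
    intro y
    rw [← Equiv.sum_comp (Equiv.addRight y)]
    refine Finset.sum_congr rfl (fun h _ => ?_)
    rw [← AddChar.map_add_eq_mul]
    congr 1
    simp only [Equiv.coe_addRight]
    ring
  rw [Finset.sum_congr rfl (fun y _ => e2 y), Finset.sum_comm]
  have e3 : ∀ h : ZMod p, ∑ y : ZMod p, ψ (a * h ^ 2 + b * h) * ψ (y * (2 * a * h)) =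
      if h = 0 then (p : ℂ) else 0 := by
    intro h
    rw [← Finset.mul_sum, AddChar.sum_mulShift _ hprim]
    by_cases hh : h = 0
    · rw [if_pos hh, hh]
      simp [ZMod.card]
    · rw [if_neg hh, if_neg (mul_ne_zero (mul_ne_zero h2 ha) hh)]
      simp
  rw [Finset.sum_congr rfl (fun h _ => e3 h), Finset.sum_ite_eq' Finset.univ (0 : ZMod p),
    if_pos (Finset.mem_univ _)]

theorem gs_real (p : ℕ) [Fact p.Prime] (hp : p ≠ 2) (a b : ZMod p) (ha : a ≠ 0) :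
    |∑ x : ZMod p, Real.cos (2 * Real.pi * (((a * x ^ 2 + b * x : ZMod p)).val : ℝ) / p)| ≤ √(p : ℝ) := by
  have h1 : ∑ x : ZMod p, Real.cos (2 * Real.pi * (((a * x ^ 2 + b * x : ZMod p)).val : ℝ) / p) =
      (∑ x : ZMod p, ZMod.stdAddChar (N := p) (a * x ^ 2 + b * x)).re := by
    rw [Complex.re_sum]
    exact Finset.sum_congr rfl (fun x _ => gs_cos p _)
  rw [h1]
  refine (Complex.abs_re_le_norm _).trans ?_
  apply Real.le_sqrt_of_sq_le
  have h2 := gs_normSq p hp a b ha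
  rw [Complex.mul_conj, Complex.normSq_eq_norm_sq] at h2
  have h3 : ‖∑ x : ZMod p, ZMod.stdAddChar (N := p) (a * x ^ 2 + b * x)‖ ^ 2 = (p : ℝ) := by
    exact_mod_cast h2
  exact h3.le

theorem lin_real (p : ℕ) [Fact p.Prime] (b : ZMod p) (hb : b ≠ 0) :
    ∑ x : ZMod p, Real.cos (2 * Real.pi * ((b * x : ZMod p).val : ℝ) / p) = 0 := by
  have h1 : ∑ x : ZMod p, Real.cos (2 * Real.pi * ((b * x : ZMod p).val : ℝ) / p) =
      (∑ x : ZMod p, ZMod.stdAddChar (N := p) (x * b)).re := by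
    rw [Complex.re_sum]
    refine Finset.sum_congr rfl (fun x _ => ?_)
    rw [mul_comm x b]
    exact gs_cos p _
  rw [h1, AddChar.sum_mulShift b (ZMod.isPrimitive_stdAddChar p), if_neg hb]
  simp

end Pool.Agent.Helper49.Sph
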