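import Mathlib
import Pool.Agent.Helper49.Sph.GS

set_option autoImplicit false

namespace Pool.Agent.Helper49.Sph

/-
Plan. Index type of the coordinates: Fin t ⊕ (ZMod p × Fin 2), which has t + 2 p elements.
c_a (a < t): the simplex vector sqrt(t/(t-1)) (e_a - (1/t) sum_i e_i) of R^t: norm 1, <c_a, c_a'> = -1/(t-1).
v_{a,b} (a, b in ZMod p) in R^(2p): coordinates (x,0) -> cos(2 pi (a x^2 + b x).val/p)/sqrt p, (x,1) -> sin(...)/sqrt p.
<v_{a,b}, v_{a',b'}> = (1/p) sum_x cos(2 pi ((a-a') x^2 + (b-b') x).val / p) (cos of a difference; the angle only matters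
mod 2 pi, so (u - v).val may replace u.val - v.val: their difference is a multiple of p).
Point of the code for a < t (cast to ZMod p, injective because t ≤ p) and b in ZMod p: sqrt α c_a ⊕ sqrt(1-α) v_{a,b}.
Norm 1; same a, different b: α + (1-α) 0 = α (lin_real); different a: ≤ -α/(t-1) + (1-α)/sqrt p < 0 (gs_real, hlt).
Different (a,b) give different vectors (inner product ≠ 1). Transport to Fin (t + 2 p) by a bijection of the index
types (LinearIsometryEquiv.piLpCongrLeft) or write the coordinates directly.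
-/

private theorem cos_sub_val (p : ℕ) [Fact p.Prime] (u v : ZMod p) :
    Real.cos (2 * Real.pi * (u.val : ℝ) / p - 2 * Real.pi * (v.val : ℝ) / p) =
      Real.cos (2 * Real.pi * ((u - v).val : ℝ) / p) := by
  have hp0 : (p : ℝ) ≠ 0 := by exact_mod_cast (Fact.out : p.Prime).ne_zero
  have hk : ∃ k : ℤ, (u.val : ℤ) - (v.val : ℤ) = ((u - v).val : ℤ) + k * p := by
    have h1 : (((u.val : ℤ) - (v.val : ℤ) - ((u - v).val : ℤ) : ℤ) : ZMod p) = 0 := by
      push_cast
      rw [ZMod.natCast_zmod_val, ZMod.natCast_zmod_val, ZMod.natCast_zmod_val]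
      ring
    rw [ZMod.intCast_zmod_eq_zero_iff_dvd] at h1
    obtain ⟨k, hk⟩ := h1
    exact ⟨k, by linarith⟩
  obtain ⟨k, hk⟩ := hk
  have hk' : (u.val : ℝ) - (v.val : ℝ) = ((u - v).val : ℝ) + k * p := by exact_mod_cast hk
  have e : 2 * Real.pi * (u.val : ℝ) / p - 2 * Real.pi * (v.val : ℝ) / p =
      2 * Real.pi * ((u - v).val : ℝ) / p + k * (2 * Real.pi) := by
    have : 2 * Real.pi * (u.val : ℝ) / p - 2 * Real.pi * (v.val : ℝ) / p =
      2 * Real.pi * ((u.val : ℝ) - (v.val : ℝ)) / p := by ring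
    rw [this, hk']
    field_simp
  rw [e, Real.cos_add_int_mul_two_pi]

/-- the angle. -/
private noncomputable def ang (p t : ℕ) (a : Fin t) (b x : ZMod p) : ℝ :=
  2 * Real.pi * (((((a : ℕ) : ZMod p) * x ^ 2 + b * x : ZMod p)).val : ℝ) / p

/-- the code vector in coordinates. -/
private noncomputable def cvec (α : ℝ) (p t : ℕ) (q : Fin t × ZMod p) :
    EuclideanSpace ℝ (Fin t ⊕ (ZMod p × Fin 2)) :=
  WithLp.toLp 2 (fun i => match i with
    | Sum.inl i => √α * √((t : ℝ) / (t - 1)) * ((if i = q.1 then 1 else 0) - 1 / t)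
    | Sum.inr (x, j) => √(1 - α) / √(p : ℝ) *
        (if j = 0 then Real.cos (ang p t q.1 q.2 x) else Real.sin (ang p t q.1 q.2 x)))

private theorem simplex_sum (t : ℕ) (ht : 2 ≤ t) (a a' : Fin t) :
    ∑ i : Fin t, ((if i = a then (1 : ℝ) else 0) - 1 / t) * ((if i = a' then 1 else 0) - 1 / t) =
      (if a = a' then 1 else 0) - 1 / t := by
  have ht0 : (t : ℝ) ≠ 0 := by positivity
  have e : ∀ i : Fin t, ((if i = a then (1 : ℝ) else 0) - 1 / t) * ((if i = a' then 1 else 0) - 1 / t)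
      = (if i = a then (if a = a' then 1 else 0) else 0) - (1 / t) * (if i = a then 1 else 0)
        - (1 / t) * (if i = a' then 1 else 0) + 1 / t * (1 / t) := by
    intro i
    by_cases h1 : i = a
    · subst h1
      by_cases h2 : i = a' <;> simp [h2] <;> ring
    · by_cases h2 : i = a'
      · subst h2
        simp only [h1, if_true, if_false]; ring
      · simp only [h1, h2, if_false]; ring
  rw [Finset.sum_congr rfl fun i _ => e i, Finset.sum_add_distrib, Finset.sum_sub_distrib,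
    Finset.sum_sub_distrib, ← Finset.mul_sum, ← Finset.mul_sum, Finset.sum_ite_eq',
    Finset.sum_ite_eq', Finset.sum_ite_eq']
  simp only [Finset.mem_univ, if_true, Finset.sum_const, Finset.card_univ, Fintype.card_fin,
    nsmul_eq_mul]
  field_simp
  ring

private theorem inner_cvec {α : ℝ} (h0 : 0 < α) (h1 : α < 1) (p t : ℕ) [Fact p.Prime]
    (ht : 2 ≤ t) (q q' : Fin t × ZMod p) :
    inner ℝ (cvec α p t q) (cvec α p t q') =
      α * ((t : ℝ) / (t - 1) * ((if q.1 = q'.1 then 1 else 0) - 1 / t)) +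
      (1 - α) / p * ∑ x : ZMod p, Real.cos (2 * Real.pi *
        ((((((q.1 : ℕ) : ZMod p) - ((q'.1 : ℕ) : ZMod p)) * x ^ 2 + (q.2 - q'.2) * x : ZMod p)).val : ℝ) / p) := by
  have hp0 : (0 : ℝ) < p := by exact_mod_cast (Fact.out : p.Prime).pos
  have ht1 : (0 : ℝ) < (t : ℝ) - 1 := by
    have : (2 : ℝ) ≤ t := by exact_mod_cast ht
    linarith
  have ht0 : (0 : ℝ) ≤ (t : ℝ) / (t - 1) := by positivity
  rw [PiLp.inner_apply, Fintype.sum_sum_type, Fintype.sum_prod_type]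
  congr 1
  · rw [← simplex_sum t ht, Finset.mul_sum, Finset.mul_sum]
    refine Finset.sum_congr rfl fun i _ => ?_
    simp only [cvec, RCLike.inner_apply, conj_trivial]
    have e1 : √α * √α = α := Real.mul_self_sqrt h0.le
    have e2 : √((t : ℝ) / (t - 1)) * √((t : ℝ) / (t - 1)) = (t : ℝ) / (t - 1) := Real.mul_self_sqrt ht0
    calc _ = (√α * √α) * ((√((t : ℝ) / (t - 1)) * √((t : ℝ) / (t - 1))) *
        (((if i = q.1 then (1 : ℝ) else 0) - 1 / t) * ((if i = q'.1 then 1 else 0) - 1 / t))) := by ring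
      _ = _ := by rw [e1, e2]
  · rw [Finset.mul_sum]
    refine Finset.sum_congr rfl fun x _ => ?_
    rw [Fin.sum_univ_two]
    simp only [cvec, RCLike.inner_apply, conj_trivial]
    have e1 : √(1 - α) * √(1 - α) = 1 - α := Real.mul_self_sqrt (by linarith)
    have e2 : √(p : ℝ) * √(p : ℝ) = p := Real.mul_self_sqrt hp0.le
    have e3 : Real.cos (2 * Real.pi *
        ((((((q.1 : ℕ) : ZMod p) - ((q'.1 : ℕ) : ZMod p)) * x ^ 2 + (q.2 - q'.2) * x : ZMod p)).val : ℝ) / p) =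
        Real.cos (ang p t q.1 q.2 x) * Real.cos (ang p t q'.1 q'.2 x) +
          Real.sin (ang p t q.1 q.2 x) * Real.sin (ang p t q'.1 q'.2 x) := by
      rw [← Real.cos_sub]
      unfold ang
      rw [cos_sub_val]
      congr 5
      ring
    rw [e3]
    simp only [if_true, one_ne_zero, if_false]
    have e4 : √(1 - α) / √(p : ℝ) * (√(1 - α) / √(p : ℝ)) = (1 - α) / p := by
      rw [div_mul_div_comm, e1, e2]
    calc _ = (√(1 - α) / √(p : ℝ) * (√(1 - α) / √(p : ℝ))) *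
        (Real.cos (ang p t q.1 q.2 x) * Real.cos (ang p t q'.1 q'.2 x) +
          Real.sin (ang p t q.1 q.2 x) * Real.sin (ang p t q'.1 q'.2 x)) := by ring
      _ = _ := by rw [e4]

private theorem inner_self_cvec {α : ℝ} (h0 : 0 < α) (h1 : α < 1) (p t : ℕ) [Fact p.Prime]
    (ht : 2 ≤ t) (q : Fin t × ZMod p) : inner ℝ (cvec α p t q) (cvec α p t q) = (1 : ℝ) := by
  have hp0 : (0 : ℝ) < p := by exact_mod_cast (Fact.out : p.Prime).pos
  have ht1 : (0 : ℝ) < (t : ℝ) - 1 := by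
    have : (2 : ℝ) ≤ t := by exact_mod_cast ht
    linarith
  have ht2 : (0 : ℝ) < t := by linarith
  rw [inner_cvec h0 h1 p t ht]
  have e : ∀ x : ZMod p, Real.cos (2 * Real.pi *
        ((((((q.1 : ℕ) : ZMod p) - ((q.1 : ℕ) : ZMod p)) * x ^ 2 + (q.2 - q.2) * x : ZMod p)).val : ℝ) / p) = 1 := by
    intro x
    have : ((((q.1 : ℕ) : ZMod p) - ((q.1 : ℕ) : ZMod p)) * x ^ 2 + (q.2 - q.2) * x : ZMod p) = 0 := by ring
    rw [this, ZMod.val_zero]
    simp
  rw [Finset.sum_congr rfl fun x _ => e x]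
  simp only [if_true, Finset.sum_const, Finset.card_univ, ZMod.card, nsmul_eq_mul, mul_one]
  field_simp
  ring

private theorem inner_ne_cvec {α : ℝ} (h0 : 0 < α) (h1 : α < 1) (p t : ℕ) [Fact p.Prime]
    (hp : p ≠ 2) (ht : 2 ≤ t) (htp : t ≤ p) (hlt : (1 - α) * ((t : ℝ) - 1) < α * √(p : ℝ))
    (q q' : Fin t × ZMod p) (hne : q ≠ q') :
    inner ℝ (cvec α p t q) (cvec α p t q') < (0 : ℝ) ∨
      inner ℝ (cvec α p t q) (cvec α p t q') = α := by
  have hp0 : (0 : ℝ) < p := by exact_mod_cast (Fact.out : p.Prime).pos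
  have ht1 : (0 : ℝ) < (t : ℝ) - 1 := by
    have : (2 : ℝ) ≤ t := by exact_mod_cast ht
    linarith
  have ht2 : (0 : ℝ) < t := by linarith
  rw [inner_cvec h0 h1 p t ht]
  by_cases ha : q.1 = q'.1
  · right
    have hb : q.2 - q'.2 ≠ 0 := fun h => hne (Prod.ext ha (sub_eq_zero.1 h))
    have e : ∀ x : ZMod p, (((((q.1 : ℕ) : ZMod p) - ((q'.1 : ℕ) : ZMod p)) * x ^ 2 +
        (q.2 - q'.2) * x : ZMod p)) = (q.2 - q'.2) * x := by
      intro x
      rw [ha]; ring
    simp only [e]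
    rw [lin_real p _ hb, ha]
    simp only [if_true, mul_zero, add_zero]
    field_simp
  · left
    have ha' : ((q.1 : ℕ) : ZMod p) - ((q'.1 : ℕ) : ZMod p) ≠ 0 := by
      intro h
      have h2 : ((q.1 : ℕ) : ZMod p) = ((q'.1 : ℕ) : ZMod p) := sub_eq_zero.1 h
      rw [ZMod.natCast_eq_natCast_iff'] at h2
      rw [Nat.mod_eq_of_lt (lt_of_lt_of_le q.1.2 htp), Nat.mod_eq_of_lt (lt_of_lt_of_le q'.1.2 htp)] at h2
      exact ha (Fin.ext h2)
    have hg := (abs_le.1 (gs_real p hp _ (q.2 - q'.2) ha')).2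
    have hsp : 0 < √(p : ℝ) := Real.sqrt_pos.2 hp0
    have e2 : √(p : ℝ) * √(p : ℝ) = p := Real.mul_self_sqrt hp0.le
    have h3 : (1 - α) / p * ∑ x : ZMod p, Real.cos (2 * Real.pi *
        ((((((q.1 : ℕ) : ZMod p) - ((q'.1 : ℕ) : ZMod p)) * x ^ 2 + (q.2 - q'.2) * x : ZMod p)).val : ℝ) / p)
        ≤ (1 - α) / p * √(p : ℝ) := by
      refine mul_le_mul_of_nonneg_left hg ?_
      exact div_nonneg (by linarith) hp0.le
    have h4 : (1 - α) / p * √(p : ℝ) = (1 - α) / √(p : ℝ) := by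
      rw [div_mul_eq_mul_div, div_eq_div_iff hp0.ne' hsp.ne', mul_assoc, e2]
    have h5 : (1 - α) / √(p : ℝ) < α / ((t : ℝ) - 1) := by
      rw [div_lt_div_iff₀ hsp ht1]; exact hlt
    have h6 : α * ((t : ℝ) / (t - 1) * ((if q.1 = q'.1 then 1 else 0) - 1 / t)) = -(α / ((t : ℝ) - 1)) := by
      rw [if_neg ha]
      field_simp
      ring
    rw [h6]
    linarith [h3, h4, h5]

theorem code_prime {α : ℝ} (h0 : 0 < α) (h1 : α < 1) (p t : ℕ) [Fact p.Prime] (hp : p ≠ 2)
    (ht : 2 ≤ t) (htp : t ≤ p) (hlt : (1 - α) * ((t : ℝ) - 1) < α * √(p : ℝ)) :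
    ∃ S : Finset (EuclideanSpace ℝ (Fin (t + 2 * p))), S.card = t * p ∧ (∀ x ∈ S, ‖x‖ = 1) ∧
      (∀ x ∈ S, ∀ y ∈ S, x ≠ y → (inner ℝ x y < 0 ∨ inner ℝ x y = α)) := by
  classical
  have hcard : Fintype.card (Fin t ⊕ (ZMod p × Fin 2)) = t + 2 * p := by
    simp [ZMod.card]; ring
  let e : (Fin t ⊕ (ZMod p × Fin 2)) ≃ Fin (t + 2 * p) := Fintype.equivFinOfCardEq hcard
  let L : EuclideanSpace ℝ (Fin t ⊕ (ZMod p × Fin 2)) ≃ₗᵢ[ℝ] EuclideanSpace ℝ (Fin (t + 2 * p)) :=
    LinearIsometryEquiv.piLpCongrLeft 2 ℝ ℝ e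
  have hin : ∀ q q' : Fin t × ZMod p, inner ℝ (L (cvec α p t q)) (L (cvec α p t q')) =
      inner ℝ (cvec α p t q) (cvec α p t q') := fun q q' => L.inner_map_map _ _
  have hinj : Function.Injective (fun q : Fin t × ZMod p => L (cvec α p t q)) := by
    intro q q' h
    by_contra hne
    have h2 : cvec α p t q = cvec α p t q' := L.injective h
    have h3 := inner_self_cvec h0 h1 p t ht q
    rcases inner_ne_cvec h0 h1 p t hp ht htp hlt q q' hne with h4 | h4
    · rw [← h2, h3] at h4; linarith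
    · rw [← h2, h3] at h4; linarith
  refine ⟨Finset.univ.image (fun q : Fin t × ZMod p => L (cvec α p t q)), ?_, ?_, ?_⟩
  · rw [Finset.card_image_of_injective _ hinj, Finset.card_univ, Fintype.card_prod, Fintype.card_fin,
      ZMod.card]
  · intro x hx
    rw [Finset.mem_image] at hx
    obtain ⟨q, -, rfl⟩ := hx
    rw [L.norm_map, norm_eq_sqrt_real_inner, inner_self_cvec h0 h1 p t ht, Real.sqrt_one]
  · intro x hx y hy hxy
    rw [Finset.mem_image] at hx hy
    obtain ⟨q, -, rfl⟩ := hx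
    obtain ⟨q', -, rfl⟩ := hy
    rw [hin]
    exact inner_ne_cvec h0 h1 p t hp ht htp hlt q q' (fun h => hxy (by rw [h]))

end Pool.Agent.Helper49.Sph
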