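import Mathlib
import Pool.Agent.Helper49.Sph.LB1
import Pool.Agent.Helper17.Sph.Lower

set_option autoImplicit false

namespace Pool.Agent.Helper49.Sph

/-
Plan. c = α/2. For d large (d ≥ d0(α)) take by Bertrand (Nat.exists_prime_lt_and_le_two_mul) a prime p with
d/12 ≤ p ≤ d/3 (n = d/6, n < p ≤ 2n), p odd, and t = ⌊c sqrt p⌋ + 1 with c sqrt p ≥ 1, so 2 ≤ t ≤ p,
(1-α)(t-1) ≤ (1-α) c sqrt p < α sqrt p, t ≥ c sqrt p. code_prime in dimension t + 2p ≤ 3p ≤ d, then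
Helper17.Sph.embed. Size t p ≥ c p^(3/2) ≥ c (d/12)^(3/2). For d < d0 one unit vector and κ ≤ d0^(-3/2).
-/
private theorem lb2_rpow {x : ℝ} (hx : 0 < x) : x ^ (3 / 2 : ℝ) = x * √x := by
  have e : (3 / 2 : ℝ) = 1 + 1 / 2 := by norm_num
  rw [e, Real.rpow_add hx, Real.rpow_one, ← Real.sqrt_eq_rpow]

theorem lower_bound {α : ℝ} (h0 : 0 < α) (h1 : α < 1) : ∃ κ : ℝ, 0 < κ ∧ ∀ d : ℕ, 1 ≤ d →
    ∃ S : Finset (EuclideanSpace ℝ (Fin d)), κ * (d : ℝ) ^ (3 / 2 : ℝ) ≤ S.card ∧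
      (∀ x ∈ S, ‖x‖ = 1) ∧ (∀ x ∈ S, ∀ y ∈ S, x ≠ y → (inner ℝ x y < 0 ∨ inner ℝ x y = α)) := by
  obtain ⟨c, hc⟩ : ∃ c, c = α / 2 := ⟨_, rfl⟩
  have hc0 : 0 < c := by rw [hc]; positivity
  have hc1 : c < 1 / 2 := by rw [hc]; linarith
  obtain ⟨D0, hD0⟩ : ∃ D0 : ℕ, D0 = 12 + ⌈6 / c ^ 2⌉₊ := ⟨_, rfl⟩
  have hD12 : 12 ≤ D0 := by omega
  have hD0c : 6 / c ^ 2 ≤ (D0 : ℝ) := by
    rw [hD0]; push_cast
    have := Nat.le_ceil (6 / c ^ 2)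
    linarith
  have hDpos : (0 : ℝ) < (D0 : ℝ) := by
    have : (12 : ℝ) ≤ D0 := by exact_mod_cast hD12
    linarith
  refine ⟨min (c / (6 : ℝ) ^ (3 / 2 : ℝ)) (1 / (D0 : ℝ) ^ (3 / 2 : ℝ)), ?_, ?_⟩
  · exact lt_min (by positivity) (by positivity)
  intro d hd
  have hdR : (0 : ℝ) < (d : ℝ) := by exact_mod_cast hd
  by_cases hdD : d < D0
  · -- one vector
    refine ⟨{EuclideanSpace.single (⟨0, by omega⟩ : Fin d) (1 : ℝ)}, ?_, ?_, ?_⟩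
    · rw [Finset.card_singleton, Nat.cast_one]
      calc min (c / (6 : ℝ) ^ (3 / 2 : ℝ)) (1 / (D0 : ℝ) ^ (3 / 2 : ℝ)) * (d : ℝ) ^ (3 / 2 : ℝ)
          ≤ 1 / (D0 : ℝ) ^ (3 / 2 : ℝ) * (D0 : ℝ) ^ (3 / 2 : ℝ) := by
            gcongr
            exact min_le_right _ _
        _ = 1 := by
            have : (D0 : ℝ) ^ (3 / 2 : ℝ) ≠ 0 := by positivity
            field_simp
    · intro x hx
      rw [Finset.mem_singleton] at hx
      rw [hx]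
      simp
    · intro x hx y hy hxy
      rw [Finset.mem_singleton] at hx hy
      exact absurd (hx.trans hy.symm) hxy
  have hdD := not_lt.mp hdD
  have hn : d / 6 ≠ 0 := by omega
  obtain ⟨p, hp, hp1, hp2⟩ := Nat.exists_prime_lt_and_le_two_mul (d / 6) hn
  have h6p : d ≤ 6 * p := by omega
  have hp3 : 3 ≤ p := by omega
  have h3p : 3 * p ≤ d := by omega
  have : Fact p.Prime := ⟨hp⟩
  have hpR : (0 : ℝ) < (p : ℝ) := by exact_mod_cast hp.pos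
  have h6pR : (d : ℝ) ≤ 6 * p := by exact_mod_cast h6p
  have hpc : 1 / c ^ 2 ≤ (p : ℝ) := by
    have h1 : (D0 : ℝ) ≤ d := by exact_mod_cast hdD
    have h2 : 6 / c ^ 2 ≤ 6 * p := hD0c.trans (h1.trans h6pR)
    have e : 6 / c ^ 2 = 6 * (1 / c ^ 2) := by ring
    rw [e] at h2
    linarith
  have hsq : 1 ≤ c * √(p : ℝ) := by
    have h1 : 1 / c ≤ √(p : ℝ) := by
      apply Real.le_sqrt_of_sq_le
      have e : ((1 : ℝ) / c) ^ 2 = 1 / c ^ 2 := by rw [div_pow, one_pow]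
      rw [e]
      exact hpc
    calc (1 : ℝ) = c * (1 / c) := by field_simp
      _ ≤ c * √(p : ℝ) := by gcongr
  obtain ⟨t, ht⟩ : ∃ t, t = ⌊c * √(p : ℝ)⌋₊ + 1 := ⟨_, rfl⟩
  have hcs : 0 ≤ c * √(p : ℝ) := by positivity
  have hf1 : (⌊c * √(p : ℝ)⌋₊ : ℝ) ≤ c * √(p : ℝ) := Nat.floor_le hcs
  have hf2 : c * √(p : ℝ) < (⌊c * √(p : ℝ)⌋₊ : ℝ) + 1 := Nat.lt_floor_add_one _
  have ht2 : 2 ≤ t := by
    have : 1 ≤ ⌊c * √(p : ℝ)⌋₊ := by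
      apply Nat.le_floor
      exact_mod_cast hsq
    omega
  have hpsq : √(p : ℝ) * √(p : ℝ) = p := Real.mul_self_sqrt hpR.le
  have hs1 : 1 ≤ √(p : ℝ) := by
    apply Real.le_sqrt_of_sq_le
    have : (3 : ℝ) ≤ p := by exact_mod_cast hp3
    linarith
  have htR : (t : ℝ) = (⌊c * √(p : ℝ)⌋₊ : ℝ) + 1 := by rw [ht]; push_cast; ring
  have htp : t ≤ p := by
    have h1 : (t : ℝ) ≤ p := by
      rw [htR]
      have h3 : (3 : ℝ) ≤ p := by exact_mod_cast hp3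
      have h4 : c * √(p : ℝ) ≤ 1 / 2 * √(p : ℝ) := by gcongr
      have h5 : √(p : ℝ) ≤ p := by nlinarith
      linarith
    exact_mod_cast h1
  have hlt : (1 - α) * ((t : ℝ) - 1) < α * √(p : ℝ) := by
    have h1 : (t : ℝ) - 1 ≤ c * √(p : ℝ) := by rw [htR]; linarith
    have h2 : 0 ≤ 1 - α := by linarith
    have hs0 : 0 < √(p : ℝ) := by linarith
    calc (1 - α) * ((t : ℝ) - 1) ≤ (1 - α) * (c * √(p : ℝ)) := by gcongr
      _ = (1 - α) / 2 * (α * √(p : ℝ)) := by rw [hc]; ring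
      _ < 1 * (α * √(p : ℝ)) := by
          have : 0 < α * √(p : ℝ) := by positivity
          apply mul_lt_mul_of_pos_right _ this
          linarith
      _ = α * √(p : ℝ) := one_mul _
  obtain ⟨S, hS1, hS2, hS3⟩ := code_prime h0 h1 p t (by omega) ht2 htp hlt
  have hdim : t + 2 * p ≤ d := by omega
  obtain ⟨S', hS1', hS2', hS3'⟩ := Pool.Agent.Helper17.Sph.embed hdim α S hS2 hS3
  refine ⟨S', ?_, hS2', hS3'⟩
  rw [hS1', hS1]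
  push_cast
  have h6 : (0 : ℝ) < (6 : ℝ) ^ (3 / 2 : ℝ) := by positivity
  calc min (c / (6 : ℝ) ^ (3 / 2 : ℝ)) (1 / (D0 : ℝ) ^ (3 / 2 : ℝ)) * (d : ℝ) ^ (3 / 2 : ℝ)
      ≤ c / (6 : ℝ) ^ (3 / 2 : ℝ) * (6 * (p : ℝ)) ^ (3 / 2 : ℝ) := by
        gcongr
        exact min_le_left _ _
    _ = c * (p : ℝ) ^ (3 / 2 : ℝ) := by
        rw [Real.mul_rpow (by norm_num) hpR.le]
        field_simp
    _ = c * √(p : ℝ) * p := by
        rw [lb2_rpow hpR]; ring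
    _ ≤ (t : ℝ) * p := by
        gcongr
        rw [htR]
        exact hf2.le

end Pool.Agent.Helper49.Sph
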