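import Mathlib
import Pool.Agent.Helper49.Sph.R3

set_option autoImplicit false

open scoped Classical

namespace Pool.Agent.Helper49.Sph

theorem reduction {α : ℝ} (hα : 1 / 2 < α) (hα1 : α < 1) : ∃ R : ℕ,
    ∀ (d : ℕ) (S : Finset (EuclideanSpace ℝ (Fin d))), Code α S →
    ∃ P ⊆ S, Trans α P ∧ S.card ≤ R * P.card := by
  obtain ⟨ks, hks, hbig⟩ := big_union hα hα1
  obtain ⟨R, hR⟩ := sporadic hα hα1 ks hks
  refine ⟨R + 1, fun d S hS => ?_⟩
  obtain ⟨P, hPS, hP, hc⟩ := greedy S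
    (fun x y => inner ℝ x y = α ∧ ∀ Q, Clq α S Q → x ∈ Q → y ∈ Q → Q.card < ks)
    (fun x y h => ⟨by rw [real_inner_comm]; exact h.1, fun Q hQ hy hx => h.2 Q hQ hx hy⟩) R
    (fun x hx => by convert hR d S x hS hx)
  refine ⟨P, hPS, ?_, hc⟩
  intro x hx y hy z hz hxz hxy hyz
  have hxx : ∀ u ∈ P, (inner ℝ u u : ℝ) ≠ α := by
    intro u hu h
    rw [real_inner_self_eq_norm_sq, hS.1 u (hPS hu)] at h
    norm_num at h
    linarith
  have hxy' : x ≠ y := by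
    rintro rfl
    exact hxx _ hx hxy
  have hyz' : y ≠ z := by
    rintro rfl
    exact hxx _ hy hyz
  have h1 := hP x hx y hy hxy'
  have h2 := hP y hy z hz hyz'
  simp only [not_and, not_forall, not_lt] at h1 h2
  obtain ⟨Q, hQ, hxQ, hyQ, hQc⟩ := h1 hxy
  obtain ⟨Q', hQ', hyQ', hzQ', hQc'⟩ := h2 hyz
  have h := hbig d S Q Q' y hS hQ hQ' hQc hQc' hyQ hyQ'
  exact h.2 x (Finset.mem_union_left _ hxQ) z (Finset.mem_union_right _ hzQ') hxz

end Pool.Agent.Helper49.Sph
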